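import Pool.Agent.W452.UF.Lin

/-!
Decompositions of tensor products coming from bases of the multiplicity spaces.
-/

set_option autoImplicit false
set_option linter.unusedSectionVars false

open CategoryTheory CategoryTheory.Limits MonoidalCategory

namespace Pool.Agent.W452.UF

universe v u

variable {C : Type u} [Category.{v} C] [Preadditive C] [Linear ℂ C]
variable {ι : Type} [Fintype ι] [DecidableEq ι]
variable {S : ι → C} (hS : Sch S)

section basis

variable {K : Type} [Fintype K] [DecidableEq K] {Z : C}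

include hS in
lemma exists_dual (e : DecOn S K Z) (c : ι) (φ : (S c ⟶ Z) →ₗ[ℂ] ℂ) :
    ∃ w : Z ⟶ S c, ∀ v : S c ⟶ Z, v ≫ w = φ v • 𝟙 (S c) := by
  refine ⟨∑ k, φ (dl S c (e.lab k) ≫ e.inn k) • (e.out k ≫ dl S (e.lab k) c), fun v => ?_⟩
  have h1 : v = ∑ k, sc hS (v ≫ e.out k) • (dl S c (e.lab k) ≫ e.inn k) := by
    have h2 : ∀ k, sc hS (v ≫ e.out k) • (dl S c (e.lab k) ≫ e.inn k) =
        v ≫ (e.out k ≫ e.inn k) := by
      intro k
      rw [← Category.assoc]
      conv_rhs => rw [sc_spec hS (v ≫ e.out k)]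
      simp
    simp only [h2]
    rw [← Preadditive.comp_sum, e.tot, Category.comp_id]
  conv_rhs => rw [h1]
  rw [map_sum, Preadditive.comp_sum, Finset.sum_smul]
  refine Finset.sum_congr rfl (fun k _ => ?_)
  rw [Linear.comp_smul, ← Category.assoc, map_smul]
  conv_lhs => rw [sc_spec hS (v ≫ e.out k)]
  rw [Linear.smul_comp, dl_comp_dl, smul_smul, smul_eq_mul, mul_comm]
  split_ifs with h
  · simp
  · rw [sc_ne hS _ h]; simp

variable {J : ι → Type} [∀ c, Fintype (J c)] [∀ c, DecidableEq (J c)]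

/-- The decomposition given by bases of the multiplicity spaces. -/
noncomputable def decOfBasis (e : DecOn S K Z) (b : ∀ c, Module.Basis (J c) ℂ (S c ⟶ Z)) :
    DecOn S (Σ c, J c) Z where
  lab p := p.1
  inn p := b p.1 p.2
  out p := (exists_dual hS e p.1 ((b p.1).coord p.2)).choose
  self p := by
    rw [(exists_dual hS e p.1 ((b p.1).coord p.2)).choose_spec]
    simp
  ne p p' h := by
    obtain ⟨c, j⟩ := p
    obtain ⟨c', j'⟩ := p'
    by_cases hc : c = c'
    · subst hc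
      rw [(exists_dual hS e c ((b c).coord j')).choose_spec]
      have hj : j ≠ j' := fun hj => h (by rw [hj])
      simp [Finsupp.single_eq_of_ne (Ne.symm hj)]
    · exact hS.zero _ _ hc _
  tot := by
    apply e.ext_left
    intro k
    rw [Category.comp_id, Preadditive.comp_sum, Fintype.sum_sigma,
      Finset.sum_eq_single (e.lab k)]
    · have h : ∀ j, e.inn k ≫ (exists_dual hS e (e.lab k) ((b (e.lab k)).coord j)).choose ≫
          b (e.lab k) j = (b (e.lab k)).coord j (e.inn k) • b (e.lab k) j := by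
        intro j
        rw [← Category.assoc, (exists_dual hS e (e.lab k) ((b (e.lab k)).coord j)).choose_spec]
        simp
      simp only [h]
      exact (b (e.lab k)).sum_repr (e.inn k)
    · intro c _ hc
      refine Finset.sum_eq_zero (fun j _ => ?_)
      rw [← Category.assoc, hS.zero _ _ (Ne.symm hc) (e.inn k ≫ _)]
      simp
    · intro h; exact absurd (Finset.mem_univ _) h

@[simp] lemma decOfBasis_lab (e : DecOn S K Z) (b : ∀ c, Module.Basis (J c) ℂ (S c ⟶ Z))
    (p : Σ c, J c) : (decOfBasis hS e b).lab p = p.1 := rfl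

@[simp] lemma decOfBasis_inn (e : DecOn S K Z) (b : ∀ c, Module.Basis (J c) ℂ (S c ⟶ Z))
    (p : Σ c, J c) : (decOfBasis hS e b).inn p = b p.1 p.2 := rfl

end basis

variable [MonoidalCategory C] [MonoidalPreadditive C] [MonoidalLinear ℂ C]

lemma tensor_sum' {P Q R T : C} {J : Type*} (s : Finset J) (f : P ⟶ Q) (g : J → (R ⟶ T)) :
    (f ⊗ₘ ∑ j ∈ s, g j) = ∑ j ∈ s, (f ⊗ₘ g j) := tensor_sum s f g

lemma sum_tensor' {P Q R T : C} {J : Type*} (s : Finset J) (f : J → (P ⟶ Q)) (g : R ⟶ T) :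
    ((∑ j ∈ s, f j) ⊗ₘ g) = ∑ j ∈ s, (f j ⊗ₘ g) := sum_tensor s g f

lemma smul_tensor {P Q R T : C} (z : ℂ) (f : P ⟶ Q) (g : R ⟶ T) :
    ((z • f) ⊗ₘ g) = z • (f ⊗ₘ g) := by
  rw [MonoidalCategory.tensorHom_def, MonoidalCategory.tensorHom_def, MonoidalLinear.smul_whiskerRight, Linear.smul_comp]

lemma tensor_smul {P Q R T : C} (z : ℂ) (f : P ⟶ Q) (g : R ⟶ T) :
    (f ⊗ₘ (z • g)) = z • (f ⊗ₘ g) := by
  rw [MonoidalCategory.tensorHom_def, MonoidalCategory.tensorHom_def, MonoidalLinear.whiskerLeft_smul, Linear.comp_smul]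

lemma zero_tensor' {P Q R T : C} (g : R ⟶ T) : ((0 : P ⟶ Q) ⊗ₘ g) = 0 := by
  rw [MonoidalCategory.tensorHom_def, MonoidalPreadditive.zero_whiskerRight]; simp

lemma tensor_zero' {P Q R T : C} (f : P ⟶ Q) : (f ⊗ₘ (0 : R ⟶ T)) = 0 := by
  rw [MonoidalCategory.tensorHom_def, MonoidalPreadditive.whiskerLeft_zero]; simp

section tens

variable {m : ι → ι → ι → Type} [∀ a b c, Fintype (m a b c)] [∀ a b c, DecidableEq (m a b c)]
variable (G : ∀ a b, DecOn S (Σ c, m a b c) (S a ⊗ S b)) 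
variable {K K' : Type} [Fintype K] [DecidableEq K] [Fintype K'] [DecidableEq K'] {X Y : C}

/-- index set of a tensor product decomposition -/
abbrev TI (m : ι → ι → ι → Type) (d : DecOn S K X) (d' : DecOn S K' Y) : Type :=
  Σ p : K × K', Σ c, m (d.lab p.1) (d'.lab p.2) c

/-- the decomposition of a tensor product -/
noncomputable def tens (d : DecOn S K X) (d' : DecOn S K' Y) : DecOn S (TI m d d') (X ⊗ Y) where
  lab x := (G (d.lab x.1.1) (d'.lab x.1.2)).lab x.2
  inn x := (G (d.lab x.1.1) (d'.lab x.1.2)).inn x.2 ≫ (d.inn x.1.1 ⊗ₘ d'.inn x.1.2)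
  out x := (d.out x.1.1 ⊗ₘ d'.out x.1.2) ≫ (G (d.lab x.1.1) (d'.lab x.1.2)).out x.2
  self x := by
    have h : ((d.inn x.1.1 ⊗ₘ d'.inn x.1.2) ≫ (d.out x.1.1 ⊗ₘ d'.out x.1.2)) = 𝟙 _ := by
      rw [tensorHom_comp_tensorHom, d.self, d'.self, id_tensorHom_id]
    rw [Category.assoc, ← Category.assoc (d.inn x.1.1 ⊗ₘ d'.inn x.1.2), h, Category.id_comp,
      DecOn.self]
  ne x x' hx := by
    obtain ⟨⟨k, l⟩, y⟩ := x
    obtain ⟨⟨k', l'⟩, y'⟩ := x'
    dsimp only
    rw [Category.assoc, ← Category.assoc (d.inn k ⊗ₘ d'.inn l), tensorHom_comp_tensorHom]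
    by_cases hk : k = k'
    · subst hk
      by_cases hl : l = l'
      · subst hl
        rw [d.self, d'.self, id_tensorHom_id, Category.id_comp]
        exact DecOn.ne _ _ _ (fun h => hx (by rw [h]))
      · rw [d'.ne l l' hl, tensor_zero']; simp
    · rw [d.ne k k' hk, zero_tensor']; simp
  tot := by
    rw [Fintype.sum_sigma]
    have h : ∀ p : K × K', ∑ y, ((d.out p.1 ⊗ₘ d'.out p.2) ≫ (G (d.lab p.1) (d'.lab p.2)).out y) ≫
        (G (d.lab p.1) (d'.lab p.2)).inn y ≫ (d.inn p.1 ⊗ₘ d'.inn p.2) =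
        ((d.out p.1 ≫ d.inn p.1) ⊗ₘ (d'.out p.2 ≫ d'.inn p.2)) := by
      intro p
      have h1 : ∀ y, ((d.out p.1 ⊗ₘ d'.out p.2) ≫ (G (d.lab p.1) (d'.lab p.2)).out y) ≫
        (G (d.lab p.1) (d'.lab p.2)).inn y ≫ (d.inn p.1 ⊗ₘ d'.inn p.2) =
        (d.out p.1 ⊗ₘ d'.out p.2) ≫ ((G (d.lab p.1) (d'.lab p.2)).out y ≫
        (G (d.lab p.1) (d'.lab p.2)).inn y) ≫ (d.inn p.1 ⊗ₘ d'.inn p.2) := by
        intro y; simp only [Category.assoc]
      simp only [h1]
      rw [← Preadditive.comp_sum, ← Preadditive.sum_comp, DecOn.tot, Category.id_comp,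
        tensorHom_comp_tensorHom]
    simp only [h]
    rw [Fintype.sum_prod_type]
    simp only [← tensor_sum', ← sum_tensor', d.tot, d'.tot, id_tensorHom_id]

/-- the adjoint of the inclusion of a block -/
lemma dag_block (d : DecOn S K X) (d' : DecOn S K' Y) (k : K) (l : K') :
    dag hS (G (d.lab k) (d'.lab l)) (tens G d d') (d.inn k ⊗ₘ d'.inn l) =
      (d.out k ⊗ₘ d'.out l) := by
  apply (G (d.lab k) (d'.lab l)).ext_right
  intro y
  rw [← dag_inn hS (G (d.lab k) (d'.lab l)) y, ← dag_comp,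
    dag_inn hS (G (d.lab k) (d'.lab l)) y]
  exact dag_inn hS (tens G d d') ⟨(k, l), y⟩

lemma dag_block' (d : DecOn S K X) (d' : DecOn S K' Y) (k : K) (l : K') :
    dag hS (tens G d d') (G (d.lab k) (d'.lab l)) (d.out k ⊗ₘ d'.out l) =
      (d.inn k ⊗ₘ d'.inn l) := by
  rw [← dag_block hS G, dag_dag]

/-- the adjoint of a tensor product of morphisms between simple objects -/
lemma dag_tensor_simple {a a' b b' : ι} (p : S a ⟶ S a') (q : S b ⟶ S b') :
    dag hS (G a b) (G a' b') (p ⊗ₘ q) =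
      (dag hS (triv S a) (triv S a') p ⊗ₘ dag hS (triv S b) (triv S b') q) := by
  by_cases ha : a = a'
  · subst ha
    by_cases hb : b = b'
    · subst hb
      have hp := sc_spec hS p
      have hq := sc_spec hS q
      rw [dag_triv, dag_triv]
      conv_lhs => rw [hp, hq]
      rw [dl_self, dl_self, smul_tensor, tensor_smul, smul_tensor, tensor_smul, id_tensorHom_id,
        dag_smul, dag_smul, dag_id]
    · rw [hS.zero _ _ hb q, tensor_zero', dag_zero, dag_zero, tensor_zero']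
  · rw [hS.zero _ _ ha p, zero_tensor', dag_zero, dag_zero, zero_tensor']

variable {L L' : Type} [Fintype L] [DecidableEq L] [Fintype L'] [DecidableEq L'] {X' Y' : C}

lemma expand (d : DecOn S K X) (e : DecOn S L X') (f : X ⟶ X') :
    f = ∑ k, ∑ l, d.out k ≫ (d.inn k ≫ f ≫ e.out l) ≫ e.inn l := by
  have h : ∀ k l, d.out k ≫ (d.inn k ≫ f ≫ e.out l) ≫ e.inn l =
      (d.out k ≫ d.inn k) ≫ f ≫ (e.out l ≫ e.inn l) := by
    intro k l; simp only [Category.assoc]
  simp only [h]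
  simp only [← Preadditive.comp_sum, ← Preadditive.sum_comp, d.tot, e.tot]
  simp

lemma dag_expand (d : DecOn S K X) (e : DecOn S L X') (f : X ⟶ X') :
    dag hS d e f = ∑ k, ∑ l, e.out l ≫
      dag hS (triv S (d.lab k)) (triv S (e.lab l)) (d.inn k ≫ f ≫ e.out l) ≫ d.inn k := by
  conv_lhs => rw [expand d e f]
  simp only [dag_sum]
  refine Finset.sum_congr rfl (fun k _ => Finset.sum_congr rfl (fun l _ => ?_))
  rw [dag_comp hS d (triv S (d.lab k)) e, dag_comp hS (triv S (d.lab k)) (triv S (e.lab l)) e,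
    dag_inn, dag_out, Category.assoc]

/-- **The adjoint of a tensor product.** -/
lemma dag_tensor (d : DecOn S K X) (d' : DecOn S K' Y) (e : DecOn S L X') (e' : DecOn S L' Y')
    (f : X ⟶ X') (g : Y ⟶ Y') :
    dag hS (tens G d d') (tens G e e') (f ⊗ₘ g) = (dag hS d e f ⊗ₘ dag hS d' e' g) := by
  rw [dag_expand hS d e f, dag_expand hS d' e' g]
  conv_lhs => rw [expand d e f, expand d' e' g]
  simp only [sum_tensor', tensor_sum', dag_sum]
  refine Finset.sum_congr rfl (fun k' _ => Finset.sum_congr rfl (fun l' _ =>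
    Finset.sum_congr rfl (fun k _ => Finset.sum_congr rfl (fun l _ => ?_))))
  rw [← tensorHom_comp_tensorHom, ← tensorHom_comp_tensorHom,
    dag_comp hS (tens G d d') (G (d.lab k) (d'.lab k')) (tens G e e'),
    dag_comp hS (G (d.lab k) (d'.lab k')) (G (e.lab l) (e'.lab l')) (tens G e e'),
    dag_block, dag_block', dag_tensor_simple, Category.assoc, tensorHom_comp_tensorHom,
    tensorHom_comp_tensorHom]

end tens

end Pool.Agent.W452.UF
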