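import Pool.Agent.W452.UF.Defs
import Pool.Agent.W452.UF.Tens

/-!
Unitarity of the associator and of the unit constraints.
-/

set_option autoImplicit false
set_option linter.unusedSectionVars false

open CategoryTheory CategoryTheory.Limits MonoidalCategory

namespace Pool.Agent.W452.UF

universe v u

variable {C : Type u} [Category.{v} C] [Preadditive C] [Linear ℂ C]
variable [MonoidalCategory C] [MonoidalPreadditive C] [MonoidalLinear ℂ C]
variable {n : ℕ} {S : Fin n → C} (hS : Sch S)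

/-- the decompositions of the objects `S a ⊗ S b` given by a gauge -/
noncomputable def gd {N : Fin n → Fin n → ℕ} (e : ∀ a b, DecOn S (Fin (N a b)) (S a ⊗ S b))
    (G : Gauge S) (a b : Fin n) : DecOn S (Σ c, Fin (mult S a b c)) (S a ⊗ S b) :=
  decOfBasis hS (e a b) (G a b)

section assoc

variable {N : Fin n → Fin n → ℕ} (e : ∀ a b, DecOn S (Fin (N a b)) (S a ⊗ S b)) (G : Gauge S)

/-- decomposition of `(a ⊗ b) ⊗ c` -/
noncomputable abbrev D1 (a b c : Fin n) := tens (gd hS e G) (gd hS e G a b) (triv S c)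

/-- decomposition of `a ⊗ (b ⊗ c)` -/
noncomputable abbrev D2 (a b c : Fin n) := tens (gd hS e G) (triv S a) (gd hS e G b c)

/-- index of the decomposition `D2` -/
def i2 {a b c d : Fin n} (y : RIdx S a b c d) :
    TI (fun a b c => Fin (mult S a b c)) (triv S a) (gd hS e G b c) :=
  ⟨((), ⟨y.1, y.2.1⟩), ⟨d, y.2.2⟩⟩

/-- index of the decomposition `D1` -/
def i1 {a b c d : Fin n} (x : LIdx S a b c d) :
    TI (fun a b c => Fin (mult S a b c)) (gd hS e G a b) (triv S c) :=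
  ⟨(⟨x.1, x.2.1⟩, ()), ⟨d, x.2.2⟩⟩

lemma i2_inj {a b c d : Fin n} (y y' : RIdx S a b c d) (h : i2 hS e G y = i2 hS e G y') :
    y = y' := by
  obtain ⟨f, i, j⟩ := y
  obtain ⟨f', i', j'⟩ := y'
  have h1 := congrArg (fun z => z.1.2.1) h
  change f = f' at h1
  subst h1
  have h2 : (⟨f, i⟩ : Σ f, Fin (mult S b c f)) = ⟨f, i'⟩ := congrArg (fun z => z.1.2) h
  have h2' : i = i' := by simpa using h2
  subst h2'
  unfold i2 at h
  simp only [Sigma.mk.injEq, heq_eq_eq, true_and] at h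
  first
  | subst h; rfl
  | (have h3 : j = j' := eq_of_heq (Sigma.mk.inj h).2; rw [h3])

lemma i1_inj {a b c d : Fin n} (x x' : LIdx S a b c d) (h : i1 hS e G x = i1 hS e G x') :
    x = x' := by
  obtain ⟨f, i, j⟩ := x
  obtain ⟨f', i', j'⟩ := x'
  have h1 := congrArg (fun z => z.1.1.1) h
  change f = f' at h1
  subst h1
  have h2 : (⟨f, i⟩ : Σ f, Fin (mult S a b f)) = ⟨f, i'⟩ := congrArg (fun z => z.1.1) h
  have h2' : i = i' := by simpa using h2
  subst h2'
  unfold i1 at h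
  simp only [Sigma.mk.injEq, heq_eq_eq, true_and] at h
  first
  | subst h; rfl
  | (have h3 : j = j' := eq_of_heq (Sigma.mk.inj h).2; rw [h3])

lemma rvec_eq {a b c d : Fin n} (y : RIdx S a b c d) :
    rvec G y = (D2 hS e G a b c).inn (i2 hS e G y) := by
  change _ = G a y.1 d y.2.2 ≫ (𝟙 (S a) ⊗ₘ G b c y.1 y.2.1)
  rw [id_tensorHom]
  rfl

lemma lvec_eq {a b c d : Fin n} (x : LIdx S a b c d) :
    lvec G x = (D1 hS e G a b c).inn (i1 hS e G x) := by
  change _ = G x.1 c d x.2.2 ≫ (G a b x.1 x.2.1 ⊗ₘ 𝟙 (S c))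
  rw [tensorHom_id]
  rfl

/-- the projection dual to `rvec` -/
noncomputable def rout {a b c d : Fin n} (y : RIdx S a b c d) : S a ⊗ (S b ⊗ S c) ⟶ S d :=
  (D2 hS e G a b c).out (i2 hS e G y)

/-- the projection dual to `lvec` -/
noncomputable def lout {a b c d : Fin n} (y : LIdx S a b c d) : (S a ⊗ S b) ⊗ S c ⟶ S d :=
  (D1 hS e G a b c).out (i1 hS e G y)

lemma i2_orth {a b c d : Fin n} (y y' : RIdx S a b c d) :
    rvec G y ≫ rout hS e G y' = if y = y' then 𝟙 (S d) else 0 := by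
  rw [rvec_eq hS e G]
  split_ifs with h
  · subst h; exact (D2 hS e G a b c).self _
  · exact (D2 hS e G a b c).ne _ _ (fun h' => h (i2_inj hS e G _ _ h'))

lemma i1_orth {a b c d : Fin n} (y y' : LIdx S a b c d) :
    lvec G y ≫ lout hS e G y' = if y = y' then 𝟙 (S d) else 0 := by
  rw [lvec_eq hS e G]
  split_ifs with h
  · subst h; exact (D1 hS e G a b c).self _
  · exact (D1 hS e G a b c).ne _ _ (fun h' => h (i1_inj hS e G _ _ h'))

lemma dag_rvec {a b c d : Fin n} (y : RIdx S a b c d) :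
    dag hS (triv S d) (D2 hS e G a b c) (rvec G y) = rout hS e G y := by
  rw [rvec_eq hS e G]
  exact dag_inn hS (D2 hS e G a b c) (i2 hS e G y)

lemma lvec_assoc_dag (hF : HasUnitaryF G) {a b c d : Fin n} (x x' : LIdx S a b c d) :
    (lvec G x ≫ (α_ (S a) (S b) (S c)).hom) ≫
      dag hS (triv S d) (D2 hS e G a b c) (lvec G x' ≫ (α_ (S a) (S b) (S c)).hom) =
      if x = x' then 𝟙 (S d) else 0 := by
  obtain ⟨F, hF1, hF2, -⟩ := hF a b c d
  rw [hF1 x, hF1 x', dag_sum]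
  have h2 : ∀ y : RIdx S a b c d, dag hS (triv S d) (D2 hS e G a b c) (F y x' • rvec G y) =
      (starRingEnd ℂ (F y x')) • rout hS e G y := by
    intro y
    rw [dag_smul, dag_rvec]
  simp only [h2, Preadditive.sum_comp, Preadditive.comp_sum, Linear.smul_comp, Linear.comp_smul,
    i2_orth hS e G, smul_ite, smul_zero, Finset.sum_ite_eq', Finset.mem_univ, if_true,
    smul_smul]
  rw [← Finset.sum_smul]
  have h4 : ∑ y, (starRingEnd ℂ) (F y x') * F y x = (F.conjTranspose * F) x' x := by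
    rw [Matrix.mul_apply]
    refine Finset.sum_congr rfl (fun y _ => ?_)
    rw [Matrix.conjTranspose_apply]
    rfl
  rw [h4, hF2]
  by_cases h : x = x'
  · subst h; simp
  · rw [Matrix.one_apply_ne (Ne.symm h), if_neg h, zero_smul]

lemma dag_assoc_simple (hF : HasUnitaryF G) (a b c : Fin n) :
    dag hS (D1 hS e G a b c) (D2 hS e G a b c) (α_ (S a) (S b) (S c)).hom =
      (α_ (S a) (S b) (S c)).inv := by
  have key : (α_ (S a) (S b) (S c)).hom ≫
      dag hS (D1 hS e G a b c) (D2 hS e G a b c) (α_ (S a) (S b) (S c)).hom = 𝟙 _ := by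
    apply (D1 hS e G a b c).ext_left
    intro x
    apply (D1 hS e G a b c).ext_right
    intro x'
    have h1 : dag hS (triv S _) (D2 hS e G a b c)
        ((D1 hS e G a b c).inn x' ≫ (α_ (S a) (S b) (S c)).hom) =
        dag hS (D1 hS e G a b c) (D2 hS e G a b c) (α_ (S a) (S b) (S c)).hom ≫
        (D1 hS e G a b c).out x' := by
      rw [dag_comp hS _ (D1 hS e G a b c), dag_inn]
    rw [Category.comp_id, Category.assoc, Category.assoc, ← h1, ← Category.assoc]
    obtain ⟨⟨⟨f, i⟩, u⟩, ⟨d, j⟩⟩ := x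
    obtain ⟨⟨⟨f', i'⟩, u'⟩, ⟨d', j'⟩⟩ := x'
    by_cases hd : d = d'
    · subst hd
      have hx := lvec_assoc_dag hS e G hF (a := a) (b := b) (c := c) (d := d) ⟨f, i, j⟩ ⟨f', i', j'⟩
      rw [← i1_orth hS e G, lvec_eq hS e G, lvec_eq hS e G] at hx
      exact hx
    · exact (hS.zero d d' hd _).trans (hS.zero d d' hd _).symm
  rw [← Category.id_comp (dag hS (D1 hS e G a b c) (D2 hS e G a b c) _),
    ← (α_ (S a) (S b) (S c)).inv_hom_id, Category.assoc, key, Category.comp_id]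

variable {K K' K'' : Type} [Fintype K] [DecidableEq K] [Fintype K'] [DecidableEq K']
  [Fintype K''] [DecidableEq K''] {X Y Z : C}

/-- **The associator is unitary.** -/
lemma dag_assoc (hF : HasUnitaryF G) (d : DecOn S K X) (d' : DecOn S K' Y) (d'' : DecOn S K'' Z) :
    dag hS (tens (gd hS e G) (tens (gd hS e G) d d') d'')
      (tens (gd hS e G) d (tens (gd hS e G) d' d'')) (α_ X Y Z).hom = (α_ X Y Z).inv := by
  have h1 : 𝟙 ((X ⊗ Y) ⊗ Z) = ∑ k, ∑ l, ∑ m, ((d.out k ⊗ₘ d'.out l) ⊗ₘ d''.out m) ≫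
      ((d.inn k ⊗ₘ d'.inn l) ⊗ₘ d''.inn m) := by
    simp only [tensorHom_comp_tensorHom, ← tensor_sum', ← sum_tensor', d.tot, d'.tot, d''.tot,
      id_tensorHom_id]
  have h1' : 𝟙 (X ⊗ (Y ⊗ Z)) = ∑ k, ∑ l, ∑ m, (d.out k ⊗ₘ (d'.out l ⊗ₘ d''.out m)) ≫
      (d.inn k ⊗ₘ (d'.inn l ⊗ₘ d''.inn m)) := by
    simp only [tensorHom_comp_tensorHom, ← tensor_sum', ← sum_tensor', d.tot, d'.tot, d''.tot,
      id_tensorHom_id]
  have h2 : (α_ X Y Z).hom = ∑ k, ∑ l, ∑ m, ((d.out k ⊗ₘ d'.out l) ⊗ₘ d''.out m) ≫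
      (α_ (S (d.lab k)) (S (d'.lab l)) (S (d''.lab m))).hom ≫
      (d.inn k ⊗ₘ (d'.inn l ⊗ₘ d''.inn m)) := by
    rw [← Category.id_comp (α_ X Y Z).hom, h1]
    simp only [Preadditive.sum_comp, Category.assoc, associator_naturality]
  have h3 : (α_ X Y Z).inv = ∑ k, ∑ l, ∑ m, (d.out k ⊗ₘ (d'.out l ⊗ₘ d''.out m)) ≫
      (α_ (S (d.lab k)) (S (d'.lab l)) (S (d''.lab m))).inv ≫
      ((d.inn k ⊗ₘ d'.inn l) ⊗ₘ d''.inn m) := by
    rw [← Category.id_comp (α_ X Y Z).inv, h1']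
    simp only [Preadditive.sum_comp, Category.assoc, associator_inv_naturality]
  rw [h3]
  conv_lhs => rw [h2]
  simp only [dag_sum]
  refine Finset.sum_congr rfl (fun k _ => Finset.sum_congr rfl (fun l _ =>
    Finset.sum_congr rfl (fun m _ => ?_)))
  rw [dag_comp hS _ (D1 hS e G (d.lab k) (d'.lab l) (d''.lab m)) _,
    dag_comp hS _ (D2 hS e G (d.lab k) (d'.lab l) (d''.lab m)) _,
    dag_assoc_simple hS e G hF, dag_tensor, dag_tensor, dag_block, dag_block', dag_inn, dag_out,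
    Category.assoc]

end assoc

end Pool.Agent.W452.UF
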