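import Pool.Agent.W452.UF.Unit

/-!
The C*-tensor category of objects with an orthonormal decomposition.
-/

set_option autoImplicit false
set_option linter.unusedSectionVars false
set_option linter.unusedVariables false

open CategoryTheory CategoryTheory.Limits MonoidalCategory

namespace Pool.Agent.W452.UF

universe v u

section norm

open scoped Matrix MatrixOrder Matrix.Norms.L2Operator ComplexOrder

lemma exists_sqrt {K K' : Type} [Fintype K] [DecidableEq K] [Fintype K'] [DecidableEq K']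
    (A : Matrix K K' ℂ) : ∃ B : Matrix K K ℂ, A * A.conjTranspose = B * B.conjTranspose ∧
      ∀ E : Matrix K K ℂ, Commute (A * A.conjTranspose) E → Commute B E := by
  have hM : 0 ≤ A * A.conjTranspose :=
    (Matrix.posSemidef_self_mul_conjTranspose A).nonneg
  refine ⟨CFC.sqrt (A * A.conjTranspose), ?_, ?_⟩
  · have h1 : (CFC.sqrt (A * A.conjTranspose)).conjTranspose = CFC.sqrt (A * A.conjTranspose) := by
      have h2 : 0 ≤ CFC.sqrt (A * A.conjTranspose) := CFC.sqrt_nonneg _
      exact (Matrix.nonneg_iff_posSemidef.mp h2).isHermitian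
    rw [h1, CFC.sqrt_mul_sqrt_self _ hM]
  · intro E hE
    unfold CFC.sqrt
    exact Commute.cfcₙ_nnreal hE _

variable {C : Type u} [Category.{v} C] [Preadditive C] [Linear ℂ C]
variable {ι : Type} [DecidableEq ι] {S : ι → C} (hS : Sch S)
variable {K K' K'' : Type} [Fintype K] [DecidableEq K] [Fintype K'] [DecidableEq K']
  [Fintype K''] [DecidableEq K'']
variable {X Y Z : C}

/-- the norm -/
noncomputable def nrm (d : DecOn S K X) (d' : DecOn S K' Y) (f : X ⟶ Y) : ℝ :=
  ‖mat hS d d' f‖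

lemma eq_zero_of_nrm (d : DecOn S K X) (d' : DecOn S K' Y) (f : X ⟶ Y)
    (h : nrm hS d d' f = 0) : f = 0 := by
  apply mat_inj hS d d'
  rw [mat_zero]
  exact norm_eq_zero.mp h

lemma nrm_add_le (d : DecOn S K X) (d' : DecOn S K' Y) (f g : X ⟶ Y) :
    nrm hS d d' (f + g) ≤ nrm hS d d' f + nrm hS d d' g := by
  unfold nrm
  rw [mat_add]
  exact norm_add_le _ _

lemma nrm_smul (d : DecOn S K X) (d' : DecOn S K' Y) (z : ℂ) (f : X ⟶ Y) :
    nrm hS d d' (z • f) = ‖z‖ * nrm hS d d' f := by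
  unfold nrm
  rw [mat_smul]
  exact norm_smul _ _

lemma nrm_comp_le (d : DecOn S K X) (d' : DecOn S K' Y) (d'' : DecOn S K'' Z) (f : X ⟶ Y)
    (g : Y ⟶ Z) : nrm hS d d'' (f ≫ g) ≤ nrm hS d d' f * nrm hS d' d'' g := by
  unfold nrm
  rw [mat_comp hS d d' d'']
  exact Matrix.l2_opNorm_mul _ _

lemma nrm_comp_dag (d : DecOn S K X) (d' : DecOn S K' Y) (f : X ⟶ Y) :
    nrm hS d d (f ≫ dag hS d d' f) = nrm hS d d' f ^ 2 := by
  unfold nrm
  rw [mat_comp hS d d' d, mat_dag]
  have h := Matrix.l2_opNorm_conjTranspose_mul_self (mat hS d d' f).conjTranspose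
  rw [Matrix.conjTranspose_conjTranspose, Matrix.l2_opNorm_conjTranspose] at h
  rw [h, sq]

lemma nrm_complete (d : DecOn S K X) (d' : DecOn S K' Y) (f : ℕ → (X ⟶ Y))
    (hf : ∀ ε > 0, ∃ N, ∀ k ≥ N, ∀ l ≥ N, nrm hS d d' (f k - f l) < ε) :
    ∃ g : X ⟶ Y, ∀ ε > 0, ∃ N, ∀ k ≥ N, nrm hS d d' (f k - g) < ε := by
  have hcs : CompleteSpace (Matrix K K' ℂ) := FiniteDimensional.complete ℂ _
  have hc : CauchySeq (fun k => mat hS d d' (f k)) := by
    rw [Metric.cauchySeq_iff]
    intro ε hε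
    obtain ⟨N, hN⟩ := hf ε hε
    refine ⟨N, fun k hk l hl => ?_⟩
    rw [dist_eq_norm, ← mat_sub]
    exact hN k hk l hl
  obtain ⟨A, hA⟩ := cauchySeq_tendsto_of_complete hc
  -- the limit is supported on the blocks
  have hblock : ∀ k k', d.lab k ≠ d'.lab k' → A k k' = 0 := by
    intro k k' hk
    let φ : Matrix K K' ℂ →ₗ[ℂ] ℂ :=
      { toFun := fun M => M k k'
        map_add' := fun _ _ => rfl
        map_smul' := fun _ _ => rfl }
    have h1 : Filter.Tendsto (fun j => φ (mat hS d d' (f j))) Filter.atTop (nhds (φ A)) :=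
      (φ.continuous_of_finiteDimensional.tendsto A).comp hA
    have h2 : (fun j => φ (mat hS d d' (f j))) = fun _ => 0 := by
      funext j
      exact mat_apply_ne hS d d' (f j) k k' hk
    rw [h2] at h1
    exact (tendsto_nhds_unique h1 tendsto_const_nhds)
  refine ⟨mor d d' A, fun ε hε => ?_⟩
  obtain ⟨N, hN⟩ := (Metric.tendsto_atTop.mp hA) ε hε
  refine ⟨N, fun k hk => ?_⟩
  have h3 := hN k hk
  rw [dist_eq_norm] at h3
  unfold nrm
  rw [mat_sub, mat_mor_of hS d d' A hblock]
  exact h3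

/-- `f f*` has a square root in the algebra of endomorphisms. -/
lemma exists_root (d : DecOn S K X) (d' : DecOn S K' Y) (f : X ⟶ Y) :
    ∃ g : X ⟶ X, f ≫ dag hS d d' f = g ≫ dag hS d d g := by
  obtain ⟨B, hB, hcomm⟩ := exists_sqrt (mat hS d d' f)
  have hblock : ∀ k k', d.lab k ≠ d.lab k' → B k k' = 0 := by
    intro k k' hk
    let E : Matrix K K ℂ := Matrix.diagonal (fun l => if d.lab l = d.lab k then 1 else 0)
    have hE : Commute (mat hS d d' f * (mat hS d d' f).conjTranspose) E := by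
      have h1 : mat hS d d' f * (mat hS d d' f).conjTranspose =
          mat hS d d (f ≫ dag hS d d' f) := by
        rw [mat_comp hS d d' d, mat_dag]
      rw [h1]
      unfold Commute SemiconjBy
      ext a b
      simp only [E, Matrix.mul_diagonal, Matrix.diagonal_mul]
      by_cases hab : d.lab a = d.lab b
      · rw [hab]; ring
      · rw [mat_apply_ne hS d d _ a b hab]; ring
    have h2 := hcomm E hE
    have h3 := congrFun (congrFun h2 k) k'
    simp only [E, Matrix.mul_diagonal, Matrix.diagonal_mul, if_true, if_neg (Ne.symm hk),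
      mul_zero, one_mul] at h3
    exact h3.symm
  refine ⟨mor d d B, ?_⟩
  apply mat_inj hS d d
  rw [mat_comp hS d d' d, mat_comp hS d d d, mat_dag, mat_dag, mat_mor_of hS d d B hblock, hB]

lemma exists_isometry (dX : DecOn S K X) (d : DecOn S K' Y) (i : Y ⟶ X) (q : X ⟶ Y)
    (h1 : i ≫ q = 𝟙 Y) (hp : dag hS dX dX (q ≫ i) = q ≫ i) :
    ∃ u : Y ⟶ X, u ≫ dag hS d dX u = 𝟙 Y ∧ dag hS d dX u ≫ u = q ≫ i := by
  obtain ⟨g, hg⟩ := exists_root hS d dX i
  have e1 : dag hS dX d q ≫ dag hS d dX i = 𝟙 Y := by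
    rw [← dag_comp, h1, dag_id]
  have e2 : dag hS d dX i ≫ dag hS dX d q = q ≫ i := by
    rw [← dag_comp, hp]
  have e3 : q ≫ (i ≫ dag hS d dX i) = dag hS d dX i := by
    rw [← Category.assoc, ← e2, Category.assoc, e1, Category.comp_id]
  -- the inverse of `i i*`
  have e4 : (i ≫ dag hS d dX i) ≫ (dag hS dX d q ≫ q) = 𝟙 Y := by
    rw [Category.assoc, ← Category.assoc (dag hS d dX i), e2, ← Category.assoc,
      ← Category.assoc i, h1, Category.id_comp, h1]
  obtain ⟨r, hr⟩ : ∃ r, r = dag hS d d g ≫ (dag hS dX d q ≫ q) := ⟨_, rfl⟩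
  have e5 : g ≫ r = 𝟙 Y := by
    rw [hr, ← Category.assoc, ← hg, e4]
  have e6 : r ≫ g = 𝟙 Y := by
    apply mat_inj hS d d
    rw [mat_comp hS d d d, mat_id, mul_eq_one_comm, ← mat_comp, e5, mat_id]
  have e7 : dag hS d d g ≫ dag hS d d r = 𝟙 Y := by
    rw [← dag_comp, e6, dag_id]
  refine ⟨r ≫ i, ?_, ?_⟩
  · rw [dag_comp hS d d dX, Category.assoc, ← Category.assoc i, hg, Category.assoc, e7,
      Category.comp_id, e6]
  · rw [dag_comp hS d d dX, Category.assoc, ← e3, hg]
    have e8 : (q ≫ g ≫ dag hS d d g) ≫ dag hS d d r ≫ r ≫ i =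
        q ≫ g ≫ (dag hS d d g ≫ dag hS d d r) ≫ r ≫ i := by simp only [Category.assoc]
    rw [e8, e7, Category.id_comp, ← Category.assoc g, e5, Category.id_comp]

lemma dag_change {L L' : Type} [Fintype L] [DecidableEq L] [Fintype L'] [DecidableEq L']
    (P : DecOn S K X) (P' : DecOn S K' X) (Q : DecOn S L Y) (Q' : DecOn S L' Y)
    (hP : dag hS P' P (𝟙 X) = 𝟙 X) (hQ : dag hS Q Q' (𝟙 Y) = 𝟙 Y) (f : X ⟶ Y) :
    dag hS P' Q' f = dag hS P Q f := by
  rw [← Category.id_comp f, dag_comp hS P' P Q', hP, Category.comp_id,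
    ← Category.comp_id f, dag_comp hS P Q Q', hQ, Category.id_comp, Category.comp_id,
    Category.id_comp]

lemma dag_reindex_one (P : DecOn S K X) (e : K ≃ K') :
    dag hS P (P.reindex e) (𝟙 X) = 𝟙 X := by
  have h := dag_reindex hS P P (Equiv.refl K) e (𝟙 X)
  rw [dag_id] at h
  exact h

lemma dag_one_symm (P : DecOn S K X) (P' : DecOn S K' X) (h : dag hS P P' (𝟙 X) = 𝟙 X) :
    dag hS P' P (𝟙 X) = 𝟙 X := by
  conv_lhs => rw [← h]
  exact dag_dag hS P P' (𝟙 X)

lemma dag_one_trans (P : DecOn S K X) (P' : DecOn S K' X) (P'' : DecOn S K'' X)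
    (h : dag hS P P' (𝟙 X) = 𝟙 X) (h' : dag hS P' P'' (𝟙 X) = 𝟙 X) :
    dag hS P P'' (𝟙 X) = 𝟙 X := by
  rw [← Category.id_comp (𝟙 X), dag_comp hS P P' P'', h, h']

end norm

section cat

variable {C : Type u} [Category.{v} C] [Preadditive C] [Linear ℂ C]
variable [MonoidalCategory C] [MonoidalPreadditive C] [MonoidalLinear ℂ C]
variable {n : ℕ} {S : Fin n → C} (hS : Sch S)

/-- The data from which the C*-tensor category is built. -/
structure Data (S : Fin n → C) where
  hS : Sch S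
  N : Fin n → Fin n → ℕ
  e : ∀ a b, DecOn S (Fin (N a b)) (S a ⊗ S b)
  G : Gauge S
  i0 : Fin n
  w : S i0 ≅ 𝟙_ C
  t : ℂ
  ht : t ≠ 0

/-- An object with a decomposition into simple objects. -/
structure Obj (D : Data S) where
  pt : C
  K : ℕ
  dec : DecOn S (Fin K) pt

namespace Obj

variable {D : Data S}

instance : Category.{v} (Obj D) where
  Hom A B := A.pt ⟶ B.pt
  id A := 𝟙 A.pt
  comp f g := f ≫ g
  id_comp f := Category.id_comp (obj := C) f
  comp_id f := Category.comp_id (obj := C) f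
  assoc f g h := Category.assoc (obj := C) f g h

instance : Preadditive (Obj D) where
  homGroup A B := inferInstanceAs (AddCommGroup (A.pt ⟶ B.pt))
  add_comp A B E f f' g := Preadditive.add_comp (C := C) _ _ _ f f' g
  comp_add A B E f g g' := Preadditive.comp_add (C := C) _ _ _ f g g'

instance : Linear ℂ (Obj D) where
  homModule A B := inferInstanceAs (Module ℂ (A.pt ⟶ B.pt))
  smul_comp A B E r f g := Linear.smul_comp (C := C) _ _ _ r f g
  comp_smul A B E f r g := Linear.comp_smul (C := C) _ _ _ f r g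

/-- isomorphisms -/
def mkIso {A B : Obj D} (f : A.pt ≅ B.pt) : A ≅ B where
  hom := f.hom
  inv := f.inv
  hom_inv_id := f.hom_inv_id
  inv_hom_id := f.inv_hom_id

/-- tensor product of objects with decompositions -/
noncomputable def tobj (A B : Obj D) : Obj D where
  pt := A.pt ⊗ B.pt
  K := Fintype.card (TI (fun a b c => Fin (mult S a b c)) A.dec B.dec)
  dec := (tens (gd D.hS D.e D.G) A.dec B.dec).reindex (Fintype.equivFin _)

/-- the unit object with its decomposition -/
noncomputable def uobj (D : Data S) : Obj D where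
  pt := 𝟙_ C
  K := 1
  dec := unitDec D.w D.t D.ht

noncomputable instance : MonoidalCategoryStruct (Obj D) where
  tensorObj A B := tobj A B
  whiskerLeft A B B' f := A.pt ◁ f
  whiskerRight f B := MonoidalCategoryStruct.whiskerRight (C := C) f B.pt
  tensorHom f g := MonoidalCategoryStruct.tensorHom (C := C) f g
  tensorUnit := uobj D
  associator A B E := mkIso (α_ A.pt B.pt E.pt)
  leftUnitor A := mkIso (λ_ A.pt)
  rightUnitor A := mkIso (ρ_ A.pt)

noncomputable instance : MonoidalCategory (Obj D) where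
  tensorHom_def f g := MonoidalCategory.tensorHom_def (C := C) f g
  id_tensorHom_id A B := MonoidalCategory.id_tensorHom_id (C := C) A.pt B.pt
  tensorHom_comp_tensorHom f g h k := MonoidalCategory.tensorHom_comp_tensorHom (C := C) f g h k
  whiskerLeft_id A B := MonoidalCategory.whiskerLeft_id (C := C) A.pt B.pt
  id_whiskerRight A B := MonoidalCategory.id_whiskerRight (C := C) A.pt B.pt
  associator_naturality f g h := MonoidalCategory.associator_naturality (C := C) f g h
  leftUnitor_naturality f := MonoidalCategory.leftUnitor_naturality (C := C) f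
  rightUnitor_naturality f := MonoidalCategory.rightUnitor_naturality (C := C) f
  pentagon A B E F := MonoidalCategory.pentagon (C := C) A.pt B.pt E.pt F.pt
  triangle A B := MonoidalCategory.triangle (C := C) A.pt B.pt

instance : MonoidalPreadditive (Obj D) where
  whiskerLeft_zero := MonoidalPreadditive.whiskerLeft_zero (C := C)
  zero_whiskerRight := MonoidalPreadditive.zero_whiskerRight (C := C)
  whiskerLeft_add f g := MonoidalPreadditive.whiskerLeft_add (C := C) f g
  add_whiskerRight f g := MonoidalPreadditive.add_whiskerRight (C := C) f g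

instance : MonoidalLinear ℂ (Obj D) where
  whiskerLeft_smul A B E r f := MonoidalLinear.whiskerLeft_smul (C := C) A.pt r f
  smul_whiskerRight r A B f E := MonoidalLinear.smul_whiskerRight (C := C) r f E.pt

/-- direct sum of decompositions -/
def dsum {D : Data S} (A B : Obj D) (Z : C) (i : A.pt ⟶ Z) (i' : Z ⟶ A.pt) (j : B.pt ⟶ Z)
    (j' : Z ⟶ B.pt) (h1 : i ≫ i' = 𝟙 _) (h2 : j ≫ j' = 𝟙 _) (h3 : i ≫ j' = 0) (h4 : j ≫ i' = 0)
    (h5 : i' ≫ i + j' ≫ j = 𝟙 Z) : DecOn S (Fin A.K ⊕ Fin B.K) Z where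
  lab := Sum.elim A.dec.lab B.dec.lab
  inn
    | Sum.inl k => A.dec.inn k ≫ i
    | Sum.inr k => B.dec.inn k ≫ j
  out
    | Sum.inl k => i' ≫ A.dec.out k
    | Sum.inr k => j' ≫ B.dec.out k
  self
    | Sum.inl k => by
      change (A.dec.inn k ≫ i) ≫ i' ≫ A.dec.out k = 𝟙 _
      rw [Category.assoc, ← Category.assoc i, h1, Category.id_comp, A.dec.self]
    | Sum.inr k => by
      change (B.dec.inn k ≫ j) ≫ j' ≫ B.dec.out k = 𝟙 _
      rw [Category.assoc, ← Category.assoc j, h2, Category.id_comp, B.dec.self]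
  ne
    | Sum.inl k, Sum.inl l => fun h => by
      change (A.dec.inn k ≫ i) ≫ i' ≫ A.dec.out l = 0
      rw [Category.assoc, ← Category.assoc i, h1, Category.id_comp,
        A.dec.ne k l (fun h' => h (by rw [h']))]
    | Sum.inr k, Sum.inr l => fun h => by
      change (B.dec.inn k ≫ j) ≫ j' ≫ B.dec.out l = 0
      rw [Category.assoc, ← Category.assoc j, h2, Category.id_comp,
        B.dec.ne k l (fun h' => h (by rw [h']))]
    | Sum.inl k, Sum.inr l => fun _ => by
      change (A.dec.inn k ≫ i) ≫ j' ≫ B.dec.out l = 0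
      rw [Category.assoc, ← Category.assoc i, h3, zero_comp, comp_zero]
    | Sum.inr k, Sum.inl l => fun _ => by
      change (B.dec.inn k ≫ j) ≫ i' ≫ A.dec.out l = 0
      rw [Category.assoc, ← Category.assoc j, h4, zero_comp, comp_zero]
  tot := by
    rw [Fintype.sum_sum_type]
    change ∑ k, (i' ≫ A.dec.out k) ≫ (A.dec.inn k ≫ i) +
      ∑ k, (j' ≫ B.dec.out k) ≫ (B.dec.inn k ≫ j) = 𝟙 Z
    have e1 : ∀ k, (i' ≫ A.dec.out k) ≫ (A.dec.inn k ≫ i) =
        i' ≫ (A.dec.out k ≫ A.dec.inn k) ≫ i := by intro k; simp only [Category.assoc]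
    have e2 : ∀ k, (j' ≫ B.dec.out k) ≫ (B.dec.inn k ≫ j) =
        j' ≫ (B.dec.out k ≫ B.dec.inn k) ≫ j := by intro k; simp only [Category.assoc]
    simp only [e1, e2]
    rw [← Preadditive.comp_sum, ← Preadditive.sum_comp, A.dec.tot, ← Preadditive.comp_sum,
      ← Preadditive.sum_comp, B.dec.tot, Category.id_comp, Category.id_comp, h5]

variable (D : Data S)

/-- the adjoint in the category of objects with decomposition -/
noncomputable def adj {A B : Obj D} (f : A ⟶ B) : B ⟶ A := dag D.hS A.dec B.dec f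

/-- the forgetful functor -/
def forget : Obj D ⥤ C where
  obj A := A.pt
  map f := f
  map_id _ := rfl
  map_comp _ _ := rfl

instance : (forget D).Additive where
  map_add := rfl

instance : (forget D).Linear ℂ where
  map_smul _ _ := rfl

instance : (forget D).Full where
  map_surjective f := ⟨f, rfl⟩

instance : (forget D).Faithful where
  map_injective h := h

/-- the forgetful functor is (strictly) monoidal -/
noncomputable abbrev forgetMonoidal : (forget D).Monoidal :=
  Functor.CoreMonoidal.toMonoidal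
    { εIso := Iso.refl _
      μIso := fun X Y => Iso.refl _
      μIso_hom_natural_left := fun f X' => by
        exact (Category.comp_id (obj := C) _).trans (Category.id_comp (obj := C) _).symm
      μIso_hom_natural_right := fun X' f => by
        exact (Category.comp_id (obj := C) _).trans (Category.id_comp (obj := C) _).symm
      associativity := fun X Y Z => by
        change 𝟙 (X.pt ⊗ Y.pt) ▷ Z.pt ≫ 𝟙 _ ≫ (α_ X.pt Y.pt Z.pt).hom =
          (α_ X.pt Y.pt Z.pt).hom ≫ X.pt ◁ 𝟙 (Y.pt ⊗ Z.pt) ≫ 𝟙 _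
        simp
      left_unitality := fun X => by
        change (λ_ X.pt).hom = 𝟙 (𝟙_ C) ▷ X.pt ≫ 𝟙 _ ≫ (λ_ X.pt).hom
        simp
      right_unitality := fun X => by
        change (ρ_ X.pt).hom = X.pt ◁ 𝟙 (𝟙_ C) ≫ 𝟙 _ ≫ (ρ_ X.pt).hom
        simp }

end Obj

/-- the unitary data -/
structure Data.IsUnitary (D : Data S) : Prop where
  hF : HasUnitaryF D.G
  hL : ∀ b j, ‖D.t * Ln D.hS D.G D.w b j‖ = 1
  hR : ∀ b j, ‖D.t * Rn D.hS D.G D.w b j‖ = 1

/-- **The C*-tensor structure.** -/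
noncomputable def cstar (D : Data S) (hD : D.IsUnitary)
    (hdec : ∀ X : C, ∃ (k : ℕ), Nonempty (DecOn S (Fin k) X))
    (hsum : ∀ X Y : C, ∃ (Z : C) (i : X ⟶ Z) (i' : Z ⟶ X) (j : Y ⟶ Z) (j' : Z ⟶ Y),
      i ≫ i' = 𝟙 _ ∧ j ≫ j' = 𝟙 _ ∧ i ≫ j' = 0 ∧ j ≫ i' = 0 ∧ i' ≫ i + j' ≫ j = 𝟙 Z)
    (hidem : ∀ (X : C) (p : X ⟶ X), p ≫ p = p →
      ∃ (Y : C) (i : Y ⟶ X) (q : X ⟶ Y), i ≫ q = 𝟙 Y ∧ q ≫ i = p) :
    CStarTensor (Obj D) where
  adj f := Obj.adj D f
  nrm {A B} f := nrm D.hS A.dec B.dec f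
  adj_adj {A B} f := dag_dag D.hS A.dec B.dec f
  adj_comp {A B E} f g := dag_comp D.hS A.dec B.dec E.dec f g
  adj_add {A B} f g := dag_add D.hS A.dec B.dec f g
  adj_smul {A B} z f := dag_smul D.hS A.dec B.dec z f
  eq_zero_of_nrm {A B} f h := eq_zero_of_nrm D.hS A.dec B.dec f h
  nrm_add_le {A B} f g := nrm_add_le D.hS A.dec B.dec f g
  nrm_smul {A B} z f := nrm_smul D.hS A.dec B.dec z f
  complete {A B} f h := nrm_complete D.hS A.dec B.dec f h
  nrm_comp_le {A B E} f g := nrm_comp_le D.hS A.dec B.dec E.dec f g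
  nrm_comp_adj {A B} f := nrm_comp_dag D.hS A.dec B.dec f
  positive {A B} f := exists_root D.hS A.dec B.dec f
  directSum A B := by
    obtain ⟨Z, i, i', j, j', h1, h2, h3, h4, h5⟩ := hsum A.pt B.pt
    let d := Obj.dsum A B Z i i' j j' h1 h2 h3 h4 h5
    let Z' : Obj D := ⟨Z, _, d.reindex (Fintype.equivFin _)⟩
    have hi : dag D.hS A.dec d i = i' := by
      apply A.dec.ext_right
      intro k
      rw [← dag_inn D.hS A.dec k, ← dag_comp, dag_inn D.hS A.dec k]
      exact dag_inn D.hS d (Sum.inl k)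
    have hj : dag D.hS B.dec d j = j' := by
      apply B.dec.ext_right
      intro k
      rw [← dag_inn D.hS B.dec k, ← dag_comp, dag_inn D.hS B.dec k]
      exact dag_inn D.hS d (Sum.inr k)
    have hi' : dag D.hS A.dec (d.reindex (Fintype.equivFin _)) i = i' := by
      rw [← hi]
      exact dag_reindex D.hS A.dec d (Equiv.refl _) _ i
    have hj' : dag D.hS B.dec (d.reindex (Fintype.equivFin _)) j = j' := by
      rw [← hj]
      exact dag_reindex D.hS B.dec d (Equiv.refl _) _ j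
    refine ⟨Z', i, j, ?_, ?_, ?_⟩
    · change i ≫ dag D.hS A.dec (d.reindex (Fintype.equivFin _)) i = 𝟙 A.pt
      rw [hi', h1]
    · change j ≫ dag D.hS B.dec (d.reindex (Fintype.equivFin _)) j = 𝟙 B.pt
      rw [hj', h2]
    · change dag D.hS A.dec (d.reindex (Fintype.equivFin _)) i ≫ i +
        dag D.hS B.dec (d.reindex (Fintype.equivFin _)) j ≫ j = 𝟙 Z
      rw [hi', hj', h5]
  subobject {A} p hp hpa := by
    obtain ⟨Y, i, q, h1, h2⟩ := hidem A.pt p hp
    obtain ⟨k, ⟨d⟩⟩ := hdec Y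
    obtain ⟨u, hu1, hu2⟩ := exists_isometry D.hS A.dec d i q h1 (by rw [h2]; exact hpa)
    rw [h2] at hu2
    exact ⟨⟨Y, k, d⟩, u, hu1, hu2⟩
  adj_tensor {A B A' B'} f g := by
    change dag D.hS ((tens (gd D.hS D.e D.G) A.dec A'.dec).reindex (Fintype.equivFin _))
      ((tens (gd D.hS D.e D.G) B.dec B'.dec).reindex (Fintype.equivFin _)) (f ⊗ₘ g) = _
    rw [dag_reindex]
    exact dag_tensor D.hS (gd D.hS D.e D.G) A.dec A'.dec B.dec B'.dec f g
  adj_associator A B E := by
    have hone : ∀ {X Y : C} {K K' L L' : Type} [Fintype K] [DecidableEq K] [Fintype K']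
        [DecidableEq K'] [Fintype L] [DecidableEq L] [Fintype L'] [DecidableEq L']
        (P : DecOn S K X) (P' : DecOn S K' X) (Q : DecOn S L Y) (Q' : DecOn S L' Y),
        dag D.hS P P' (𝟙 X) = 𝟙 X → dag D.hS Q Q' (𝟙 Y) = 𝟙 Y →
        dag D.hS (tens (gd D.hS D.e D.G) P Q) (tens (gd D.hS D.e D.G) P' Q') (𝟙 (X ⊗ Y)) =
          𝟙 (X ⊗ Y) := by
      intro X Y K K' L L' _ _ _ _ _ _ _ _ P P' Q Q' h h'
      rw [← id_tensorHom_id, dag_tensor, h, h']
    refine (dag_change D.hS
      (tens (gd D.hS D.e D.G) (tens (gd D.hS D.e D.G) A.dec B.dec) E.dec) _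
      (tens (gd D.hS D.e D.G) A.dec (tens (gd D.hS D.e D.G) B.dec E.dec)) _ ?_ ?_ _).trans
      (dag_assoc D.hS D.e D.G hD.hF A.dec B.dec E.dec)
    · refine dag_one_trans D.hS _ (tens (gd D.hS D.e D.G)
        ((tens (gd D.hS D.e D.G) A.dec B.dec).reindex (Fintype.equivFin _)) E.dec) _ ?_ ?_
      · exact dag_one_symm D.hS _ _ (dag_reindex_one D.hS _ _)
      · exact hone _ _ _ _ (dag_one_symm D.hS _ _ (dag_reindex_one D.hS _ _)) (dag_id D.hS _)
    · refine dag_one_trans D.hS _ (tens (gd D.hS D.e D.G) A.dec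
        ((tens (gd D.hS D.e D.G) B.dec E.dec).reindex (Fintype.equivFin _))) _ ?_ ?_
      · exact hone _ _ _ _ (dag_id D.hS _) (dag_reindex_one D.hS _ _)
      · exact dag_reindex_one D.hS _ _
  adj_leftUnitor A := by
    refine (dag_change D.hS (tens (gd D.hS D.e D.G) (unitDec D.w D.t D.ht) A.dec) _ A.dec _
      ?_ ?_ _).trans (dag_leftUnitor D.hS D.G D.w D.e D.t D.ht hD.hL A.dec)
    · exact dag_one_symm D.hS _ _ (dag_reindex_one D.hS _ _)
    · exact dag_id D.hS _
  adj_rightUnitor A := by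
    refine (dag_change D.hS (tens (gd D.hS D.e D.G) A.dec (unitDec D.w D.t D.ht)) _ A.dec _
      ?_ ?_ _).trans (dag_rightUnitor D.hS D.G D.w D.e D.t D.ht hD.hR A.dec)
    · exact dag_one_symm D.hS _ _ (dag_reindex_one D.hS _ _)
    · exact dag_id D.hS _

end cat

end Pool.Agent.W452.UF
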