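import Pool.Agent.W452.UF.Main

/-!
Conversely, a unitary fusion category has a gauge with unitary F-matrices.
-/

set_option autoImplicit false
set_option linter.unusedSectionVars false

open CategoryTheory CategoryTheory.Limits MonoidalCategory

namespace Pool.Agent.W452.UF

universe v u w

section cstar

variable {D : Type w} [Category.{v} D] [Preadditive D] [Linear ℂ D] [MonoidalCategory D]
  [MonoidalPreadditive D] [MonoidalLinear ℂ D] (St : CStarTensor D)

lemma CStarTensor.adj_id (X : D) : St.adj (𝟙 X) = 𝟙 X := by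
  have h1 := St.adj_comp (𝟙 X) (St.adj (𝟙 X))
  rw [Category.id_comp, St.adj_adj, Category.id_comp] at h1
  exact h1.symm

lemma CStarTensor.adj_zero (X Y : D) : St.adj (0 : X ⟶ Y) = 0 := by
  have h := St.adj_smul 0 (0 : X ⟶ Y)
  simpa using h

lemma CStarTensor.adj_sum {X Y : D} {J : Type*} (s : Finset J) (f : J → (X ⟶ Y)) :
    St.adj (∑ j ∈ s, f j) = ∑ j ∈ s, St.adj (f j) := by
  classical
  induction s using Finset.induction_on with
  | empty => simpa using St.adj_zero X Y
  | insert a s ha ih => rw [Finset.sum_insert ha, Finset.sum_insert ha, St.adj_add, ih]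

lemma CStarTensor.eq_zero_of_comp_adj {X Y : D} (f : X ⟶ Y) (h : f ≫ St.adj f = 0) : f = 0 := by
  apply St.eq_zero_of_nrm
  have h1 := St.nrm_comp_adj f
  rw [h] at h1
  have h2 : St.nrm (0 : X ⟶ X) = 0 := by
    have := St.nrm_smul 0 (0 : X ⟶ X)
    simpa using this
  rw [h2] at h1
  exact pow_eq_zero_iff (two_ne_zero) |>.mp h1.symm

variable {ι : Type} [DecidableEq ι] {T : ι → D} (hT : Sch T)

lemma sc_adj {i : ι} (f : T i ⟶ T i) : sc hT (St.adj f) = (starRingEnd ℂ) (sc hT f) := by
  have h := sc_spec hT f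
  rw [dl_self] at h
  conv_lhs => rw [h]
  rw [St.adj_smul, St.adj_id, sc_smul, sc_id, mul_one]

lemma sc_comp_adj_nonneg {i : ι} {Z : D} (f : T i ⟶ Z) :
    ∃ z : ℂ, sc hT (f ≫ St.adj f) = z * (starRingEnd ℂ) z := by
  obtain ⟨g, hg⟩ := St.positive f
  refine ⟨sc hT g, ?_⟩
  rw [hg, sc_comp, sc_adj]

include St hT in
/-- Orthonormal bases exist. -/
lemma exists_onb {i : ι} {Z : D} [FiniteDimensional ℂ (T i ⟶ Z)] :
    ∃ b : Module.Basis (Fin (Module.finrank ℂ (T i ⟶ Z))) ℂ (T i ⟶ Z),
      ∀ j k, b j ≫ St.adj (b k) = if j = k then 𝟙 (T i) else 0 := by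
  let core : InnerProductSpace.Core ℂ (T i ⟶ Z) :=
    { inner := fun f g => sc hT (g ≫ St.adj f)
      conj_inner_symm := fun f g => by
        change (starRingEnd ℂ) (sc hT (f ≫ St.adj g)) = sc hT (g ≫ St.adj f)
        rw [← sc_adj St hT, St.adj_comp, St.adj_adj]
      re_inner_nonneg := fun f => by
        obtain ⟨z, hz⟩ := sc_comp_adj_nonneg St hT f
        change 0 ≤ RCLike.re (sc hT (f ≫ St.adj f))
        rw [hz, Complex.mul_conj]
        simpa using Complex.normSq_nonneg z
      add_left := fun f g h => by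
        change sc hT (h ≫ St.adj (f + g)) = _
        rw [St.adj_add, Preadditive.comp_add, sc_add]
      smul_left := fun f g z => by
        change sc hT (g ≫ St.adj (z • f)) = _
        rw [St.adj_smul, Linear.comp_smul, sc_smul]
      definite := fun f h => by
        apply St.eq_zero_of_comp_adj
        have h1 := sc_spec hT (f ≫ St.adj f)
        rw [h1]
        change sc hT (f ≫ St.adj f) = 0 at h
        rw [h, zero_smul] }
  let _ : NormedAddCommGroup (T i ⟶ Z) := core.toNormedAddCommGroup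
  let _ : InnerProductSpace ℂ (T i ⟶ Z) := InnerProductSpace.ofCore core.toCore
  let b := stdOrthonormalBasis ℂ (T i ⟶ Z)
  refine ⟨b.toBasis, fun j k => ?_⟩
  have h1 : inner ℂ (b k) (b j) = if k = j then (1 : ℂ) else 0 := by
    have := orthonormal_iff_ite.mp b.orthonormal k j
    exact this
  have h2 : sc hT (b j ≫ St.adj (b k)) = if k = j then (1 : ℂ) else 0 := h1
  have h3 := sc_spec hT (b j ≫ St.adj (b k))
  rw [dl_self, h2] at h3
  rw [OrthonormalBasis.coe_toBasis, h3]
  by_cases h : j = k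
  · subst h; simp
  · rw [if_neg h, if_neg (Ne.symm h), zero_smul]

/-- an orthonormal basis -/
noncomputable def onb (hfd : ∀ X Y : D, FiniteDimensional ℂ (X ⟶ Y)) (i : ι) (Z : D) :
    Module.Basis (Fin (Module.finrank ℂ (T i ⟶ Z))) ℂ (T i ⟶ Z) :=
  have := hfd (T i) Z
  (exists_onb St hT (i := i) (Z := Z)).choose

lemma onb_orth (hfd : ∀ X Y : D, FiniteDimensional ℂ (X ⟶ Y)) (i : ι) (Z : D)
    (j k : Fin (Module.finrank ℂ (T i ⟶ Z))) :
    onb St hT hfd i Z j ≫ St.adj (onb St hT hfd i Z k) = if j = k then 𝟙 (T i) else 0 := by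
  have := hfd (T i) Z
  exact (exists_onb St hT (i := i) (Z := Z)).choose_spec j k

/-- expansion in an orthonormal basis -/
lemma onb_expand (hfd : ∀ X Y : D, FiniteDimensional ℂ (X ⟶ Y)) (i : ι) (Z : D) (f : T i ⟶ Z) :
    ∑ j, (f ≫ St.adj (onb St hT hfd i Z j)) ≫ onb St hT hfd i Z j = f := by
  have h : ∀ j, f ≫ St.adj (onb St hT hfd i Z j) = (onb St hT hfd i Z).repr f j • 𝟙 (T i) := by
    intro j
    conv_lhs => rw [← (onb St hT hfd i Z).sum_repr f]
    rw [Preadditive.sum_comp, Finset.sum_eq_single j]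
    · rw [Linear.smul_comp, onb_orth, if_pos rfl]
    · intro k _ hk
      rw [Linear.smul_comp, onb_orth, if_neg hk, smul_zero]
    · intro h; exact absurd (Finset.mem_univ _) h
  simp only [h, Linear.smul_comp, Category.id_comp]
  exact (onb St hT hfd i Z).sum_repr f

variable [Fintype ι]

/-- completeness of the orthonormal bases -/
lemma onb_total (hfd : ∀ X Y : D, FiniteDimensional ℂ (X ⟶ Y)) {K : Type} [Fintype K]
    [DecidableEq K] {Z : D} (e : DecOn T K Z) :
    ∑ i, ∑ j, St.adj (onb St hT hfd i Z j) ≫ onb St hT hfd i Z j = 𝟙 Z := by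
  apply e.ext_left
  intro k
  rw [Preadditive.comp_sum, Category.comp_id, Finset.sum_eq_single (e.lab k)]
  · rw [Preadditive.comp_sum]
    conv_rhs => rw [← onb_expand St hT hfd (e.lab k) Z (e.inn k)]
    refine Finset.sum_congr rfl (fun j _ => ?_)
    rw [Category.assoc]
  · intro i _ hi
    rw [Preadditive.comp_sum]
    refine Finset.sum_eq_zero (fun j _ => ?_)
    rw [← Category.assoc, hT.zero _ _ (Ne.symm hi) (e.inn k ≫ _), zero_comp]
  · intro h; exact absurd (Finset.mem_univ _) h

end cstar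

section gaugeD

variable {D : Type w} [Category.{v} D] [Preadditive D] [Linear ℂ D] [MonoidalCategory D]
  [MonoidalPreadditive D] [MonoidalLinear ℂ D] (St : CStarTensor D)
variable {n : ℕ} {T : Fin n → D} (hT : Sch T)
  (hfd : ∀ X Y : D, FiniteDimensional ℂ (X ⟶ Y))

/-- the gauge of orthonormal bases -/
noncomputable def ogauge : Gauge T := fun a b c => onb St hT hfd c (T a ⊗ T b)

lemma ogauge_orth (a b c : Fin n) (j k : Fin (mult T a b c)) :
    ogauge St hT hfd a b c j ≫ St.adj (ogauge St hT hfd a b c k) =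
      if j = k then 𝟙 (T c) else 0 := onb_orth St hT hfd c (T a ⊗ T b) j k

lemma adj_whiskerRight {X Y : D} (f : X ⟶ Y) (Z : D) : St.adj (f ▷ Z) = St.adj f ▷ Z := by
  rw [← tensorHom_id, St.adj_tensor, St.adj_id, tensorHom_id]

lemma adj_whiskerLeft {X Y : D} (f : X ⟶ Y) (Z : D) : St.adj (Z ◁ f) = Z ◁ St.adj f := by
  rw [← id_tensorHom, St.adj_tensor, St.adj_id, id_tensorHom]

include hT in
lemma sum_mid {d : Fin n} {Z W : D} (A : T d ⟶ Z) (B : Z ⟶ W) {J : Fin n → Type}
    [∀ d, Fintype (J d)] (P : ∀ d, J d → (Z ⟶ T d)) (Q : ∀ d, J d → (T d ⟶ Z)) :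
    A ≫ (∑ d', ∑ y, P d' y ≫ Q d' y) ≫ B = ∑ y, A ≫ (P d y ≫ Q d y) ≫ B := by
  rw [Preadditive.sum_comp, Preadditive.comp_sum, Finset.sum_eq_single d]
  · rw [Preadditive.sum_comp, Preadditive.comp_sum]
  · intro d' _ hd'
    rw [Preadditive.sum_comp, Preadditive.comp_sum]
    refine Finset.sum_eq_zero (fun y _ => ?_)
    have h0 : A ≫ P d' y = 0 := hT.zero d d' (Ne.symm hd') _
    rw [Category.assoc, ← Category.assoc A, h0, zero_comp]
  · intro h; exact absurd (Finset.mem_univ _) h

lemma rvec_orth {a b c d : Fin n} (y y' : RIdx T a b c d) :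
    rvec (ogauge St hT hfd) y ≫ St.adj (rvec (ogauge St hT hfd) y') =
      if y = y' then 𝟙 (T d) else 0 := by
  obtain ⟨f, i, j⟩ := y
  obtain ⟨f', i', j'⟩ := y'
  unfold rvec
  rw [St.adj_comp, adj_whiskerLeft, Category.assoc, ← Category.assoc (T a ◁ _),
    ← MonoidalCategory.whiskerLeft_comp]
  by_cases hf : f = f'
  · subst hf
    rw [ogauge_orth]
    by_cases hi : i = i'
    · subst hi
      rw [if_pos rfl, MonoidalCategory.whiskerLeft_id, Category.id_comp, ogauge_orth]
      by_cases hj : j = j'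
      · subst hj; simp
      · rw [if_neg hj, if_neg]
        intro h; apply hj; simpa using h
    · rw [if_neg hi, MonoidalPreadditive.whiskerLeft_zero, zero_comp, comp_zero, if_neg]
      intro h; apply hi
      simp only [Sigma.mk.injEq, heq_eq_eq, Prod.mk.injEq, true_and] at h
      exact h.1
  · have h0 : ogauge St hT hfd b c f i ≫ St.adj (ogauge St hT hfd b c f' i') = 0 :=
      hT.zero f f' hf _
    rw [h0, MonoidalPreadditive.whiskerLeft_zero, zero_comp, comp_zero, if_neg]
    intro h; apply hf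
    exact congrArg Sigma.fst h

lemma lvec_orth {a b c d : Fin n} (y y' : LIdx T a b c d) :
    lvec (ogauge St hT hfd) y ≫ St.adj (lvec (ogauge St hT hfd) y') =
      if y = y' then 𝟙 (T d) else 0 := by
  obtain ⟨f, i, j⟩ := y
  obtain ⟨f', i', j'⟩ := y'
  unfold lvec
  rw [St.adj_comp, adj_whiskerRight, Category.assoc, ← Category.assoc (_ ▷ T c),
    ← MonoidalCategory.comp_whiskerRight]
  by_cases hf : f = f'
  · subst hf
    rw [ogauge_orth]
    by_cases hi : i = i'
    · subst hi
      rw [if_pos rfl, MonoidalCategory.id_whiskerRight, Category.id_comp, ogauge_orth]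
      by_cases hj : j = j'
      · subst hj; simp
      · rw [if_neg hj, if_neg]
        intro h; apply hj; simpa using h
    · rw [if_neg hi, MonoidalPreadditive.zero_whiskerRight, zero_comp, comp_zero, if_neg]
      intro h; apply hi
      simp only [Sigma.mk.injEq, heq_eq_eq, Prod.mk.injEq, true_and] at h
      exact h.1
  · have h0 : ogauge St hT hfd a b f i ≫ St.adj (ogauge St hT hfd a b f' i') = 0 :=
      hT.zero f f' hf _
    rw [h0, MonoidalPreadditive.zero_whiskerRight, zero_comp, comp_zero, if_neg]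
    intro h; apply hf
    exact congrArg Sigma.fst h

variable {N : D → ℕ} (dec : ∀ Z : D, DecOn T (Fin (N Z)) Z)

include dec in
lemma ogauge_total (a b : Fin n) :
    ∑ c, ∑ j, St.adj (ogauge St hT hfd a b c j) ≫ ogauge St hT hfd a b c j = 𝟙 (T a ⊗ T b) :=
  onb_total St hT hfd (dec (T a ⊗ T b))

include dec in
lemma rvec_total (a b c : Fin n) :
    ∑ d, ∑ y : RIdx T a b c d, St.adj (rvec (ogauge St hT hfd) y) ≫ rvec (ogauge St hT hfd) y =
      𝟙 (T a ⊗ (T b ⊗ T c)) := by
  simp only [Fintype.sum_sigma, Fintype.sum_prod_type]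
  rw [Finset.sum_comm]
  have h1 : ∀ f : Fin n, ∑ d, ∑ i : Fin (mult T b c f), ∑ j : Fin (mult T a f d),
      St.adj (rvec (ogauge St hT hfd) (⟨f, i, j⟩ : RIdx T a b c d)) ≫
        rvec (ogauge St hT hfd) (⟨f, i, j⟩ : RIdx T a b c d) =
      ∑ i : Fin (mult T b c f), T a ◁ (St.adj (ogauge St hT hfd b c f i) ≫
        ogauge St hT hfd b c f i) := by
    intro f
    rw [Finset.sum_comm]
    refine Finset.sum_congr rfl (fun i _ => ?_)
    have h2 : ∀ (d : Fin n) (j : Fin (mult T a f d)),
      St.adj (rvec (ogauge St hT hfd) (⟨f, i, j⟩ : RIdx T a b c d)) ≫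
        rvec (ogauge St hT hfd) (⟨f, i, j⟩ : RIdx T a b c d) =
      (T a ◁ St.adj (ogauge St hT hfd b c f i)) ≫
        (St.adj (ogauge St hT hfd a f d j) ≫ ogauge St hT hfd a f d j) ≫
        (T a ◁ ogauge St hT hfd b c f i) := by
      intro d j
      unfold rvec
      rw [St.adj_comp, adj_whiskerLeft]
      simp only [Category.assoc]
    simp only [h2]
    simp only [← Preadditive.comp_sum, ← Preadditive.sum_comp]
    rw [ogauge_total St hT hfd dec, Category.id_comp, MonoidalCategory.whiskerLeft_comp]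
  simp only [h1]
  have h3 : ∑ f : Fin n, ∑ i : Fin (mult T b c f), T a ◁ (St.adj (ogauge St hT hfd b c f i) ≫
      ogauge St hT hfd b c f i) = T a ◁ ∑ f : Fin n, ∑ i : Fin (mult T b c f),
      (St.adj (ogauge St hT hfd b c f i) ≫ ogauge St hT hfd b c f i) := by
    simp only [whiskerLeft_sum]
  rw [h3, ogauge_total St hT hfd dec, MonoidalCategory.whiskerLeft_id]

include dec in
lemma lvec_total (a b c : Fin n) :
    ∑ d, ∑ y : LIdx T a b c d, St.adj (lvec (ogauge St hT hfd) y) ≫ lvec (ogauge St hT hfd) y =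
      𝟙 ((T a ⊗ T b) ⊗ T c) := by
  simp only [Fintype.sum_sigma, Fintype.sum_prod_type]
  rw [Finset.sum_comm]
  have h1 : ∀ f : Fin n, ∑ d, ∑ i : Fin (mult T a b f), ∑ j : Fin (mult T f c d),
      St.adj (lvec (ogauge St hT hfd) (⟨f, i, j⟩ : LIdx T a b c d)) ≫
        lvec (ogauge St hT hfd) (⟨f, i, j⟩ : LIdx T a b c d) =
      ∑ i : Fin (mult T a b f), (St.adj (ogauge St hT hfd a b f i) ≫
        ogauge St hT hfd a b f i) ▷ T c := by
    intro f
    rw [Finset.sum_comm]
    refine Finset.sum_congr rfl (fun i _ => ?_)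
    have h2 : ∀ (d : Fin n) (j : Fin (mult T f c d)),
      St.adj (lvec (ogauge St hT hfd) (⟨f, i, j⟩ : LIdx T a b c d)) ≫
        lvec (ogauge St hT hfd) (⟨f, i, j⟩ : LIdx T a b c d) =
      (St.adj (ogauge St hT hfd a b f i) ▷ T c) ≫
        (St.adj (ogauge St hT hfd f c d j) ≫ ogauge St hT hfd f c d j) ≫
        (ogauge St hT hfd a b f i ▷ T c) := by
      intro d j
      unfold lvec
      rw [St.adj_comp, adj_whiskerRight]
      simp only [Category.assoc]
    simp only [h2]
    simp only [← Preadditive.comp_sum, ← Preadditive.sum_comp]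
    rw [ogauge_total St hT hfd dec, Category.id_comp, MonoidalCategory.comp_whiskerRight]
  simp only [h1]
  have h3 : ∑ f : Fin n, ∑ i : Fin (mult T a b f), (St.adj (ogauge St hT hfd a b f i) ≫
      ogauge St hT hfd a b f i) ▷ T c = (∑ f : Fin n, ∑ i : Fin (mult T a b f),
      (St.adj (ogauge St hT hfd a b f i) ≫ ogauge St hT hfd a b f i)) ▷ T c := by
    simp only [sum_whiskerRight]
  rw [h3, ogauge_total St hT hfd dec, MonoidalCategory.id_whiskerRight]

/-- the F-matrix in the orthonormal gauge -/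
noncomputable def omat (a b c d : Fin n) : Matrix (RIdx T a b c d) (LIdx T a b c d) ℂ :=
  Matrix.of fun y x => sc hT ((lvec (ogauge St hT hfd) x ≫ (α_ (T a) (T b) (T c)).hom) ≫
    St.adj (rvec (ogauge St hT hfd) y))

include dec in
lemma isFMatrix_omat (a b c d : Fin n) :
    IsFMatrix (ogauge St hT hfd) a b c d (omat St hT hfd a b c d) := by
  intro x
  have h0 : lvec (ogauge St hT hfd) x ≫ (α_ (T a) (T b) (T c)).hom =
      (lvec (ogauge St hT hfd) x ≫ (α_ (T a) (T b) (T c)).hom) ≫
      (∑ d', ∑ y : RIdx T a b c d', St.adj (rvec (ogauge St hT hfd) y) ≫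
          rvec (ogauge St hT hfd) y) ≫ 𝟙 _ := by
    rw [rvec_total St hT hfd dec a b c]; simp
  rw [h0, sum_mid hT]
  refine Finset.sum_congr rfl (fun y _ => ?_)
  rw [Category.comp_id, ← Category.assoc]
  conv_lhs => rw [sc_spec hT ((lvec (ogauge St hT hfd) x ≫ (α_ (T a) (T b) (T c)).hom) ≫
      St.adj (rvec (ogauge St hT hfd) y))]
  rw [dl_self, Linear.smul_comp, Category.id_comp]
  rfl

lemma omat_conj (a b c d : Fin n) (y : RIdx T a b c d) (x : LIdx T a b c d) :
    (starRingEnd ℂ) (omat St hT hfd a b c d y x) =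
      sc hT ((rvec (ogauge St hT hfd) y ≫ (α_ (T a) (T b) (T c)).inv) ≫
        St.adj (lvec (ogauge St hT hfd) x)) := by
  change (starRingEnd ℂ) (sc hT _) = _
  rw [← sc_adj St hT, St.adj_comp, St.adj_comp, St.adj_adj, St.adj_associator, Category.assoc]

include dec in
lemma omat_unitary (a b c d : Fin n) :
    (omat St hT hfd a b c d).conjTranspose * omat St hT hfd a b c d = 1 ∧
      omat St hT hfd a b c d * (omat St hT hfd a b c d).conjTranspose = 1 := by
  constructor
  · ext x x'
    rw [Matrix.mul_apply]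
    have h1 : ∀ y, (omat St hT hfd a b c d).conjTranspose x y * omat St hT hfd a b c d y x' =
        sc hT ((lvec (ogauge St hT hfd) x' ≫ (α_ (T a) (T b) (T c)).hom) ≫
          (St.adj (rvec (ogauge St hT hfd) y) ≫ rvec (ogauge St hT hfd) y) ≫
          (α_ (T a) (T b) (T c)).inv ≫ St.adj (lvec (ogauge St hT hfd) x)) := by
      intro y
      have h2 : (omat St hT hfd a b c d).conjTranspose x y =
        sc hT ((rvec (ogauge St hT hfd) y ≫ (α_ (T a) (T b) (T c)).inv) ≫
        St.adj (lvec (ogauge St hT hfd) x)) := omat_conj St hT hfd a b c d y x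
      rw [h2, mul_comm]
      change sc hT _ * sc hT _ = _
      rw [← sc_comp]
      simp only [Category.assoc]
    have h5 := sum_mid hT (lvec (ogauge St hT hfd) x' ≫ (α_ (T a) (T b) (T c)).hom)
      ((α_ (T a) (T b) (T c)).inv ≫ St.adj (lvec (ogauge St hT hfd) x))
      (fun d' (y : RIdx T a b c d') => St.adj (rvec (ogauge St hT hfd) y))
      (fun d' (y : RIdx T a b c d') => rvec (ogauge St hT hfd) y)
    rw [rvec_total St hT hfd dec] at h5
    rw [Finset.sum_congr rfl (fun y _ => h1 y), ← sc_sum]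
    refine (congrArg (sc hT) h5.symm).trans ?_
    have h4 : (lvec (ogauge St hT hfd) x' ≫ (α_ (T a) (T b) (T c)).hom) ≫
        𝟙 _ ≫ (α_ (T a) (T b) (T c)).inv ≫ St.adj (lvec (ogauge St hT hfd) x) =
        lvec (ogauge St hT hfd) x' ≫ St.adj (lvec (ogauge St hT hfd) x) := by simp
    rw [h4, lvec_orth]
    by_cases hx : x' = x
    · subst hx; simp
    · rw [if_neg hx, Matrix.one_apply_ne (Ne.symm hx)]; simp
  · ext y y'
    rw [Matrix.mul_apply]
    have h1 : ∀ x, omat St hT hfd a b c d y x * (omat St hT hfd a b c d).conjTranspose x y' =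
        sc hT ((rvec (ogauge St hT hfd) y' ≫ (α_ (T a) (T b) (T c)).inv) ≫
          (St.adj (lvec (ogauge St hT hfd) x) ≫ lvec (ogauge St hT hfd) x) ≫
          (α_ (T a) (T b) (T c)).hom ≫ St.adj (rvec (ogauge St hT hfd) y)) := by
      intro x
      have h2 : (omat St hT hfd a b c d).conjTranspose x y' =
        sc hT ((rvec (ogauge St hT hfd) y' ≫ (α_ (T a) (T b) (T c)).inv) ≫
        St.adj (lvec (ogauge St hT hfd) x)) := omat_conj St hT hfd a b c d y' x
      rw [h2, mul_comm]
      change sc hT _ * sc hT _ = _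
      rw [← sc_comp]
      simp only [Category.assoc]
    have h5 := sum_mid hT (rvec (ogauge St hT hfd) y' ≫ (α_ (T a) (T b) (T c)).inv)
      ((α_ (T a) (T b) (T c)).hom ≫ St.adj (rvec (ogauge St hT hfd) y))
      (fun d' (x : LIdx T a b c d') => St.adj (lvec (ogauge St hT hfd) x))
      (fun d' (x : LIdx T a b c d') => lvec (ogauge St hT hfd) x)
    rw [lvec_total St hT hfd dec] at h5
    rw [Finset.sum_congr rfl (fun x _ => h1 x), ← sc_sum]
    refine (congrArg (sc hT) h5.symm).trans ?_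
    have h4 : (rvec (ogauge St hT hfd) y' ≫ (α_ (T a) (T b) (T c)).inv) ≫
        𝟙 _ ≫ (α_ (T a) (T b) (T c)).hom ≫ St.adj (rvec (ogauge St hT hfd) y) =
        rvec (ogauge St hT hfd) y' ≫ St.adj (rvec (ogauge St hT hfd) y) := by simp
    rw [h4, rvec_orth]
    by_cases hx : y' = y
    · subst hx; simp
    · rw [if_neg hx, Matrix.one_apply_ne (Ne.symm hx)]; simp

include dec in
lemma hasUnitaryF_ogauge : HasUnitaryF (ogauge St hT hfd) := fun a b c d =>
  ⟨omat St hT hfd a b c d, isFMatrix_omat St hT hfd dec a b c d,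
    omat_unitary St hT hfd dec a b c d⟩

end gaugeD

end Pool.Agent.W452.UF
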