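import Mathlib

/-!
Definitions: complex fusion categories, gauges, F-matrices, C*-tensor categories, unitarity.
-/

set_option autoImplicit false

open CategoryTheory CategoryTheory.Limits MonoidalCategory

namespace Pool.Agent.W452.UF

universe v u w

section fusion

variable (C : Type u) [Category.{v} C] [Abelian C] [Linear ℂ C] [MonoidalCategory C]
  [MonoidalPreadditive C] [MonoidalLinear ℂ C] [RigidCategory C]

/-- A fusion category over ℂ: an abelian ℂ-linear rigid monoidal category (with bilinear tensor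
product) with finite dimensional Hom spaces and simple unit, in which every object is a finite
direct sum of simple objects (there are inclusions and projections of simple objects exhibiting
`X` as their direct sum), and with finitely many isomorphism classes of simple objects. -/
structure IsFusionCategory : Prop where
  finiteDimensional_hom : ∀ X Y : C, FiniteDimensional ℂ (X ⟶ Y)
  simple_unit : Simple (𝟙_ C)
  semisimple : ∀ X : C, ∃ (m : ℕ) (T : Fin m → C) (inn : ∀ k, T k ⟶ X) (out : ∀ k, X ⟶ T k),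
    (∀ k, Simple (T k)) ∧ (∀ k, inn k ≫ out k = 𝟙 (T k)) ∧
    (∀ k l, k ≠ l → inn k ≫ out l = 0) ∧ ∑ k, out k ≫ inn k = 𝟙 X
  finitely_many_simples : ∃ (m : ℕ) (T : Fin m → C), ∀ X : C, Simple X → ∃ i, Nonempty (X ≅ T i)

variable {C}

/-- `S` lists representatives of the simple objects, each isomorphism class exactly once. -/
structure ListsSimples {n : ℕ} (S : Fin n → C) : Prop where
  simple : ∀ i, Simple (S i)
  injective : ∀ i j, Nonempty (S i ≅ S j) → i = j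
  complete : ∀ X : C, Simple X → ∃ i, Nonempty (X ≅ S i)

end fusion

section gauge

variable {C : Type u} [Category.{v} C] [Preadditive C] [Linear ℂ C] [MonoidalCategory C]
variable {n : ℕ}

/-- The dimension of `V^{ab}_c = Hom(c, a ⊗ b)`. -/
noncomputable def mult (S : Fin n → C) (a b c : Fin n) : ℕ :=
  Module.finrank ℂ (S c ⟶ S a ⊗ S b)

/-- A gauge: a choice of a basis of every space `V^{ab}_c = Hom(c, a ⊗ b)`, `a, b, c` simple. -/
abbrev Gauge (S : Fin n → C) : Type v :=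
  ∀ a b c : Fin n, Module.Basis (Fin (mult S a b c)) ℂ (S c ⟶ S a ⊗ S b)

/-- The index set of the product basis of `⊕_e V^{ab}_e ⊗ V^{ec}_d`. -/
abbrev LIdx (S : Fin n → C) (a b c d : Fin n) : Type :=
  Σ e : Fin n, Fin (mult S a b e) × Fin (mult S e c d)

/-- The index set of the product basis of `⊕_f V^{bc}_f ⊗ V^{af}_d`. -/
abbrev RIdx (S : Fin n → C) (a b c d : Fin n) : Type :=
  Σ f : Fin n, Fin (mult S b c f) × Fin (mult S a f d)

/-- The morphism `d ⟶ e ⊗ c ⟶ (a ⊗ b) ⊗ c` of a member of the product basis of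
`⊕_e V^{ab}_e ⊗ V^{ec}_d`. -/
noncomputable def lvec {S : Fin n → C} (G : Gauge S) {a b c d : Fin n} (x : LIdx S a b c d) :
    S d ⟶ (S a ⊗ S b) ⊗ S c :=
  G x.1 c d x.2.2 ≫ (G a b x.1 x.2.1 ▷ S c)

/-- The morphism `d ⟶ a ⊗ f ⟶ a ⊗ (b ⊗ c)` of a member of the product basis of
`⊕_f V^{bc}_f ⊗ V^{af}_d`. -/
noncomputable def rvec {S : Fin n → C} (G : Gauge S) {a b c d : Fin n} (y : RIdx S a b c d) :
    S d ⟶ S a ⊗ (S b ⊗ S c) :=
  G a y.1 d y.2.2 ≫ (S a ◁ G b c y.1 y.2.1)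

/-- `F` is the F-matrix `F^{abc}_d` in the gauge `G`: the matrix, in the product bases, of the map
`⊕_e V^{ab}_e ⊗ V^{ec}_d → ⊕_f V^{bc}_f ⊗ V^{af}_d` induced by the associator. -/
def IsFMatrix {S : Fin n → C} (G : Gauge S) (a b c d : Fin n)
    (F : Matrix (RIdx S a b c d) (LIdx S a b c d) ℂ) : Prop :=
  ∀ x : LIdx S a b c d, lvec G x ≫ (α_ (S a) (S b) (S c)).hom = ∑ y, F y x • rvec G y

/-- All F-matrices are unitary in the gauge `G`. -/
def HasUnitaryF {S : Fin n → C} (G : Gauge S) : Prop :=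
  ∀ a b c d : Fin n, ∃ F : Matrix (RIdx S a b c d) (LIdx S a b c d) ℂ,
    IsFMatrix G a b c d F ∧ F.conjTranspose * F = 1 ∧ F * F.conjTranspose = 1

end gauge

section cstar

/-- The structure of a C*-tensor category on a ℂ-linear monoidal category `D`. (Compositions are
written in diagrammatic order: `f ≫ adj f` is `f* ∘ f`.) -/
structure CStarTensor (D : Type w) [Category.{v} D] [Preadditive D] [Linear ℂ D]
    [MonoidalCategory D] where
  /-- the adjoint `f*` -/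
  adj : ∀ {X Y : D}, (X ⟶ Y) → (Y ⟶ X)
  /-- the norm -/
  nrm : ∀ {X Y : D}, (X ⟶ Y) → ℝ
  adj_adj : ∀ {X Y : D} (f : X ⟶ Y), adj (adj f) = f
  adj_comp : ∀ {X Y Z : D} (f : X ⟶ Y) (g : Y ⟶ Z), adj (f ≫ g) = adj g ≫ adj f
  adj_add : ∀ {X Y : D} (f g : X ⟶ Y), adj (f + g) = adj f + adj g
  adj_smul : ∀ {X Y : D} (z : ℂ) (f : X ⟶ Y), adj (z • f) = (starRingEnd ℂ z) • adj f
  eq_zero_of_nrm : ∀ {X Y : D} (f : X ⟶ Y), nrm f = 0 → f = 0
  nrm_add_le : ∀ {X Y : D} (f g : X ⟶ Y), nrm (f + g) ≤ nrm f + nrm g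
  nrm_smul : ∀ {X Y : D} (z : ℂ) (f : X ⟶ Y), nrm (z • f) = ‖z‖ * nrm f
  /-- the Hom spaces are complete -/
  complete : ∀ {X Y : D} (f : ℕ → (X ⟶ Y)),
    (∀ ε > 0, ∃ N, ∀ k ≥ N, ∀ l ≥ N, nrm (f k - f l) < ε) →
    ∃ g : X ⟶ Y, ∀ ε > 0, ∃ N, ∀ k ≥ N, nrm (f k - g) < ε
  nrm_comp_le : ∀ {X Y Z : D} (f : X ⟶ Y) (g : Y ⟶ Z), nrm (f ≫ g) ≤ nrm f * nrm g
  /-- the C*-identity -/
  nrm_comp_adj : ∀ {X Y : D} (f : X ⟶ Y), nrm (f ≫ adj f) = nrm f ^ 2
  /-- `f* f` is positive in the C*-algebra `End X` -/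
  positive : ∀ {X Y : D} (f : X ⟶ Y), ∃ g : X ⟶ X, f ≫ adj f = g ≫ adj g
  /-- orthogonal direct sums exist -/
  directSum : ∀ X Y : D, ∃ (Z : D) (i : X ⟶ Z) (j : Y ⟶ Z), i ≫ adj i = 𝟙 X ∧
    j ≫ adj j = 𝟙 Y ∧ adj i ≫ i + adj j ≫ j = 𝟙 Z
  /-- every projection has a range -/
  subobject : ∀ {X : D} (p : X ⟶ X), p ≫ p = p → adj p = p →
    ∃ (Y : D) (i : Y ⟶ X), i ≫ adj i = 𝟙 Y ∧ adj i ≫ i = p
  adj_tensor : ∀ {X Y X' Y' : D} (f : X ⟶ Y) (g : X' ⟶ Y'), adj (f ⊗ₘ g) = (adj f ⊗ₘ adj g)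
  /-- the associator is unitary -/
  adj_associator : ∀ X Y Z : D, adj (α_ X Y Z).hom = (α_ X Y Z).inv
  /-- the unit constraints are unitary -/
  adj_leftUnitor : ∀ X : D, adj (λ_ X).hom = (λ_ X).inv
  adj_rightUnitor : ∀ X : D, adj (ρ_ X).hom = (ρ_ X).inv

/-- A ℂ-linear monoidal category is unitary if it is equivalent, as a ℂ-linear monoidal category,
to a C*-tensor category. -/
def IsUnitary (C : Type u) [Category.{v} C] [Preadditive C] [Linear ℂ C] [MonoidalCategory C] :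
    Prop :=
  ∃ (D : Type (max u v)) (_ : Category.{v} D) (_ : Preadditive D) (_ : Linear ℂ D)
    (_ : MonoidalCategory D) (_ : MonoidalPreadditive D) (_ : MonoidalLinear ℂ D)
    (_ : CStarTensor D) (F : D ⥤ C),
    F.Additive ∧ F.Linear ℂ ∧ F.IsEquivalence ∧ Nonempty F.Monoidal

end cstar

end Pool.Agent.W452.UF
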