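import Pool.Agent.W452.UF.Conv

/-!
Unitarity is equivalent to the existence of a gauge with unitary F-matrices.
-/

set_option autoImplicit false
set_option linter.unusedSectionVars false

open CategoryTheory CategoryTheory.Limits MonoidalCategory

namespace Pool.Agent.W452.UF

universe v u w

section transport

variable {C : Type u} [Category.{v} C] [Preadditive C] [Linear ℂ C] [MonoidalCategory C]
  [MonoidalPreadditive C] [MonoidalLinear ℂ C]
variable {D : Type w} [Category.{v} D] [Preadditive D] [Linear ℂ D] [MonoidalCategory D]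
  [MonoidalPreadditive D] [MonoidalLinear ℂ D]
variable (F : D ⥤ C) [F.Additive] [F.Linear ℂ] [F.Full] [F.Faithful] [F.Monoidal]
variable {n : ℕ} {S : Fin n → C} {T : Fin n → D} (φ : ∀ i, F.obj (T i) ≅ S i)

include φ in
lemma sch_transport (hS : Sch S) : Sch T where
  scalar i f := by
    obtain ⟨z, hz⟩ := hS.scalar i ((φ i).inv ≫ F.map f ≫ (φ i).hom)
    refine ⟨z, F.map_injective ?_⟩
    have h1 : F.map f = (φ i).hom ≫ ((φ i).inv ≫ F.map f ≫ (φ i).hom) ≫ (φ i).inv := by simp
    rw [h1, hz, Functor.map_smul, F.map_id]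
    simp
  ne i h := by
    apply hS.ne i
    have h1 : 𝟙 (S i) = (φ i).inv ≫ F.map (𝟙 (T i)) ≫ (φ i).hom := by simp
    rw [h1, h]
    simp
  zero i j hij f := by
    apply F.map_injective
    have h1 : F.map f = (φ i).hom ≫ ((φ i).inv ≫ F.map f ≫ (φ j).hom) ≫ (φ j).inv := by simp
    have h2 : (φ i).inv ≫ F.map f ≫ (φ j).hom = 0 := hS.zero i j hij _
    rw [h1, h2]
    simp

/-- transport of a decomposition -/
noncomputable def decTransport {k : ℕ} {Z : D} (e : DecOn S (Fin k) (F.obj Z)) :
    DecOn T (Fin k) Z where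
  lab := e.lab
  inn j := F.preimage ((φ (e.lab j)).hom ≫ e.inn j)
  out j := F.preimage (e.out j ≫ (φ (e.lab j)).inv)
  self j := by
    apply F.map_injective
    simp only [Functor.map_comp, Functor.map_preimage, Category.assoc, F.map_id]
    rw [← Category.assoc (e.inn j), e.self]
    simp
  ne j j' h := by
    apply F.map_injective
    simp only [Functor.map_comp, Functor.map_preimage, Category.assoc]
    rw [← Category.assoc (e.inn j), e.ne j j' h]
    simp
  tot := by
    apply F.map_injective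
    simp only [Functor.map_sum, Functor.map_comp, Functor.map_preimage, Category.assoc,
      Iso.inv_hom_id_assoc, F.map_id]
    exact e.tot

/-- transport of the multiplicity spaces -/
noncomputable def thetaE (a b c : Fin n) : (T c ⟶ T a ⊗ T b) ≃ₗ[ℂ] (S c ⟶ S a ⊗ S b) where
  toFun f := (φ c).inv ≫ F.map f ≫ Functor.OplaxMonoidal.δ F (T a) (T b) ≫
    ((φ a).hom ⊗ₘ (φ b).hom)
  map_add' f g := by
    rw [F.map_add]; simp only [Preadditive.add_comp, Preadditive.comp_add]
  map_smul' z f := by
    rw [F.map_smul]; simp only [Linear.smul_comp, Linear.comp_smul, RingHom.id_apply]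
  invFun g := F.preimage ((φ c).hom ≫ g ≫ ((φ a).inv ⊗ₘ (φ b).inv) ≫
    Functor.LaxMonoidal.μ F (T a) (T b))
  left_inv f := by
    apply F.map_injective
    simp only [Functor.map_preimage, Category.assoc, Iso.hom_inv_id_assoc]
    rw [← Category.assoc ((φ a).hom ⊗ₘ (φ b).hom), tensorHom_comp_tensorHom]
    simp
  right_inv g := by
    simp only [Functor.map_preimage, Category.assoc, Iso.inv_hom_id_assoc]
    simp

lemma thetaE_apply (a b c : Fin n) (f : T c ⟶ T a ⊗ T b) :
    thetaE F φ a b c f = (φ c).inv ≫ F.map f ≫ Functor.OplaxMonoidal.δ F (T a) (T b) ≫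
    ((φ a).hom ⊗ₘ (φ b).hom) := rfl

include F φ in
lemma mult_transport (a b c : Fin n) : mult S a b c = mult T a b c :=
  (thetaE F φ a b c).finrank_eq.symm

/-- transport of a gauge -/
noncomputable def gaugeTransport (G : Gauge T) : Gauge S := fun a b c =>
  ((G a b c).map (thetaE F φ a b c)).reindex (finCongr (mult_transport F φ a b c).symm)

lemma gaugeTransport_apply (G : Gauge T) (a b c : Fin n) (j : Fin (mult S a b c)) :
    gaugeTransport F φ G a b c j =
      thetaE F φ a b c (G a b c (Fin.cast (mult_transport F φ a b c) j)) := by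
  unfold gaugeTransport
  rw [Module.Basis.reindex_apply, Module.Basis.map_apply]
  rfl

/-- index transport -/
noncomputable def eL (a b c d : Fin n) : LIdx S a b c d ≃ LIdx T a b c d :=
  Equiv.sigmaCongrRight (fun e => Equiv.prodCongr (finCongr (mult_transport F φ a b e))
    (finCongr (mult_transport F φ e c d)))

/-- index transport -/
noncomputable def eR (a b c d : Fin n) : RIdx S a b c d ≃ RIdx T a b c d :=
  Equiv.sigmaCongrRight (fun f => Equiv.prodCongr (finCongr (mult_transport F φ b c f))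
    (finCongr (mult_transport F φ a f d)))

lemma lvec_transport (G : Gauge T) (a b c d : Fin n) (x : LIdx S a b c d) :
    lvec (gaugeTransport F φ G) x = (φ d).inv ≫ F.map (lvec G (eL F φ a b c d x)) ≫
      Functor.OplaxMonoidal.δ F (T a ⊗ T b) (T c) ≫
      (Functor.OplaxMonoidal.δ F (T a) (T b) ▷ F.obj (T c)) ≫
      (((φ a).hom ⊗ₘ (φ b).hom) ⊗ₘ (φ c).hom) := by
  obtain ⟨e, i, j⟩ := x
  change gaugeTransport F φ G e c d j ≫ (gaugeTransport F φ G a b e i ▷ S c) =
    (φ d).inv ≫ F.map (G e c d (Fin.cast (mult_transport F φ e c d) j) ≫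
      (G a b e (Fin.cast (mult_transport F φ a b e) i) ▷ T c)) ≫ _
  rw [gaugeTransport_apply, gaugeTransport_apply, thetaE_apply, thetaE_apply]
  generalize G e c d (Fin.cast (mult_transport F φ e c d) j) = ν
  generalize G a b e (Fin.cast (mult_transport F φ a b e) i) = μ
  rw [F.map_comp]
  simp only [Category.assoc]
  congr 2
  rw [← Category.assoc (F.map (μ ▷ T c)), ← Functor.OplaxMonoidal.δ_natural_left]
  simp only [Category.assoc]
  congr 1
  rw [← tensorHom_id, ← tensorHom_id, ← tensorHom_id, tensorHom_comp_tensorHom,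
    tensorHom_comp_tensorHom, tensorHom_comp_tensorHom]
  simp

lemma rvec_transport (G : Gauge T) (a b c d : Fin n) (y : RIdx S a b c d) :
    rvec (gaugeTransport F φ G) y = (φ d).inv ≫ F.map (rvec G (eR F φ a b c d y)) ≫
      Functor.OplaxMonoidal.δ F (T a) (T b ⊗ T c) ≫
      (F.obj (T a) ◁ Functor.OplaxMonoidal.δ F (T b) (T c)) ≫
      ((φ a).hom ⊗ₘ ((φ b).hom ⊗ₘ (φ c).hom)) := by
  obtain ⟨f, i, j⟩ := y
  change gaugeTransport F φ G a f d j ≫ (S a ◁ gaugeTransport F φ G b c f i) =
    (φ d).inv ≫ F.map (G a f d (Fin.cast (mult_transport F φ a f d) j) ≫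
      (T a ◁ G b c f (Fin.cast (mult_transport F φ b c f) i))) ≫ _
  rw [gaugeTransport_apply, gaugeTransport_apply, thetaE_apply, thetaE_apply]
  generalize G a f d (Fin.cast (mult_transport F φ a f d) j) = ν
  generalize G b c f (Fin.cast (mult_transport F φ b c f) i) = μ
  rw [F.map_comp]
  simp only [Category.assoc]
  congr 2
  rw [← Category.assoc (F.map (T a ◁ μ)), ← Functor.OplaxMonoidal.δ_natural_right]
  simp only [Category.assoc]
  congr 1
  rw [← id_tensorHom, ← id_tensorHom, ← id_tensorHom, tensorHom_comp_tensorHom,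
    tensorHom_comp_tensorHom, tensorHom_comp_tensorHom]
  simp

lemma hasUnitaryF_transport (G : Gauge T) (hG : HasUnitaryF G) :
    HasUnitaryF (gaugeTransport F φ G) := by
  intro a b c d
  obtain ⟨M, h1, h2, h3⟩ := hG a b c d
  refine ⟨M.submatrix (eR F φ a b c d) (eL F φ a b c d), ?_, ?_, ?_⟩
  · intro x
    rw [lvec_transport]
    simp only [Category.assoc]
    have e1 : (((φ a).hom ⊗ₘ (φ b).hom) ⊗ₘ (φ c).hom) ≫ (α_ (S a) (S b) (S c)).hom =
        (α_ _ _ _).hom ≫ ((φ a).hom ⊗ₘ ((φ b).hom ⊗ₘ (φ c).hom)) := associator_naturality _ _ _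
    have e2 := Functor.OplaxMonoidal.associativity F (T a) (T b) (T c)
    have e3 : Functor.OplaxMonoidal.δ F (T a ⊗ T b) (T c) ≫
      (Functor.OplaxMonoidal.δ F (T a) (T b) ▷ F.obj (T c)) ≫
      (α_ _ _ _).hom ≫ ((φ a).hom ⊗ₘ ((φ b).hom ⊗ₘ (φ c).hom)) =
      F.map (α_ (T a) (T b) (T c)).hom ≫ Functor.OplaxMonoidal.δ F (T a) (T b ⊗ T c) ≫
      (F.obj (T a) ◁ Functor.OplaxMonoidal.δ F (T b) (T c)) ≫
      ((φ a).hom ⊗ₘ ((φ b).hom ⊗ₘ (φ c).hom)) := by
      rw [reassoc_of% e2]
    rw [e1, e3, ← Category.assoc (F.map (lvec G _)), ← F.map_comp, h1, F.map_sum,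
      Preadditive.sum_comp, Preadditive.comp_sum]
    rw [← Equiv.sum_comp (eR F φ a b c d)]
    refine Finset.sum_congr rfl (fun y _ => ?_)
    rw [rvec_transport, F.map_smul, Linear.smul_comp, Linear.comp_smul]
    rfl
  · rw [Matrix.conjTranspose_submatrix, Matrix.submatrix_mul_equiv, h2,
      Matrix.submatrix_one_equiv]
  · rw [Matrix.conjTranspose_submatrix, Matrix.submatrix_mul_equiv, h3,
      Matrix.submatrix_one_equiv]

end transport

section

variable {C : Type u} [Category.{v} C] [Abelian C] [Linear ℂ C] [MonoidalCategory C]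
  [MonoidalPreadditive C] [MonoidalLinear ℂ C] [RigidCategory C]
variable {n : ℕ} {S : Fin n → C}

/-- **A unitary fusion category has a gauge in which all F-matrices are unitary.** -/
theorem gauge_of_isUnitary (hC : IsFusionCategory C) (hS : ListsSimples S) (hU : IsUnitary C) :
    ∃ G : Gauge S, HasUnitaryF G := by
  obtain ⟨D, _, _, _, _, _, _, St, F, _, _, _, ⟨_⟩⟩ := hU
  have hSch := sch_of_listsSimples hC hS
  let φ : ∀ i, F.obj (F.objPreimage (S i)) ≅ S i := fun i => F.objObjPreimageIso (S i)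
  have hT : Sch (fun i => F.objPreimage (S i)) := sch_transport F φ hSch
  have hfd : ∀ X Y : D, FiniteDimensional ℂ (X ⟶ Y) := by
    intro X Y
    have := hC.finiteDimensional_hom (F.obj X) (F.obj Y)
    exact FiniteDimensional.of_injective (F.mapLinearMap ℂ (X := X) (Y := Y)) F.map_injective
  choose k hk using exists_decOn hC hS
  exact ⟨gaugeTransport F φ (ogauge St hT hfd), hasUnitaryF_transport F φ _
    (hasUnitaryF_ogauge St hT hfd (N := fun Z => k (F.obj Z))
      (fun Z => decTransport F φ (hk (F.obj Z)).some))⟩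

end

end Pool.Agent.W452.UF
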