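import Mathlib

/-!
Orthonormal decompositions of objects of a semisimple ℂ-linear category, and the adjoint and the
norm which they define on morphisms.
-/

set_option autoImplicit false
set_option linter.unusedSectionVars false

open CategoryTheory CategoryTheory.Limits

namespace Pool.Agent.W452.UF

universe v u

variable {C : Type u} [Category.{v} C] [Preadditive C] [Linear ℂ C]
variable {ι : Type} [DecidableEq ι]

/-- Schur's lemma for a family of objects. -/
structure Sch (S : ι → C) : Prop where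
  scalar : ∀ i (f : S i ⟶ S i), ∃ z : ℂ, f = z • 𝟙 (S i)
  ne : ∀ i, 𝟙 (S i) ≠ 0
  zero : ∀ i j, i ≠ j → ∀ f : S i ⟶ S j, f = 0

/-- the identity or zero -/
def dl (S : ι → C) (i j : ι) : S i ⟶ S j := if h : i = j then eqToHom (congrArg S h) else 0

@[simp] lemma dl_self (S : ι → C) (i : ι) : dl S i i = 𝟙 (S i) := by simp [dl]

lemma dl_ne (S : ι → C) {i j : ι} (h : i ≠ j) : dl S i j = 0 := by simp [dl, h]

variable {S : ι → C} (hS : Sch S)

include hS in
lemma exists_sc {i j : ι} (f : S i ⟶ S j) : ∃ z : ℂ, f = z • dl S i j ∧ (i ≠ j → z = 0) := by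
  by_cases h : i = j
  · subst h
    obtain ⟨z, hz⟩ := hS.scalar i f
    exact ⟨z, by simpa using hz, fun h => absurd rfl h⟩
  · exact ⟨0, by simpa using hS.zero i j h f, fun _ => rfl⟩

/-- the scalar of a morphism between members of the family -/
noncomputable def sc {i j : ι} (f : S i ⟶ S j) : ℂ := (exists_sc hS f).choose

lemma sc_spec {i j : ι} (f : S i ⟶ S j) : f = sc hS f • dl S i j :=
  (exists_sc hS f).choose_spec.1

lemma sc_ne {i j : ι} (f : S i ⟶ S j) (h : i ≠ j) : sc hS f = 0 :=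
  (exists_sc hS f).choose_spec.2 h

lemma sc_unique {i j : ι} (f : S i ⟶ S j) (z : ℂ) (h : f = z • dl S i j) (h' : i ≠ j → z = 0) :
    sc hS f = z := by
  by_cases hij : i = j
  · subst hij
    have h1 := sc_spec hS f
    rw [h] at h1
    have h2 : (z - sc hS f) • 𝟙 (S i) = 0 := by
      rw [sub_smul, sub_eq_zero]
      simpa [h] using h1
    rcases smul_eq_zero.mp h2 with h3 | h3
    · exact (sub_eq_zero.mp h3).symm
    · exact absurd h3 (hS.ne i)
  · rw [sc_ne hS f hij, h' hij]

@[simp] lemma sc_add {i j : ι} (f g : S i ⟶ S j) : sc hS (f + g) = sc hS f + sc hS g := by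
  apply sc_unique
  · rw [add_smul, ← sc_spec, ← sc_spec]
  · intro h; rw [sc_ne hS f h, sc_ne hS g h, add_zero]

@[simp] lemma sc_smul {i j : ι} (z : ℂ) (f : S i ⟶ S j) : sc hS (z • f) = z * sc hS f := by
  apply sc_unique
  · rw [mul_smul, ← sc_spec]
  · intro h; rw [sc_ne hS f h, mul_zero]

@[simp] lemma sc_zero {i j : ι} : sc hS (0 : S i ⟶ S j) = 0 :=
  sc_unique hS _ _ (by simp) (fun _ => rfl)

lemma sc_sum {i j : ι} {K : Type*} (s : Finset K) (f : K → (S i ⟶ S j)) :
    sc hS (∑ k ∈ s, f k) = ∑ k ∈ s, sc hS (f k) := by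
  classical
  induction s using Finset.induction_on with
  | empty => simp
  | insert a s ha ih => rw [Finset.sum_insert ha, Finset.sum_insert ha, sc_add, ih]

@[simp] lemma sc_id (i : ι) : sc hS (𝟙 (S i)) = 1 :=
  sc_unique hS _ _ (by simp) (fun h => absurd rfl h)

lemma sc_dl (i j : ι) : sc hS (dl S i j) = if i = j then 1 else 0 := by
  split_ifs with h
  · subst h; simp
  · rw [dl_ne S h]; simp

lemma dl_comp_dl (i j k : ι) : dl S i j ≫ dl S j k = if i = j then dl S i k else 0 := by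
  split_ifs with h
  · subst h; simp
  · rw [dl_ne S h]; simp

lemma sc_comp {i j k : ι} (f : S i ⟶ S j) (g : S j ⟶ S k) :
    sc hS (f ≫ g) = sc hS f * sc hS g := by
  by_cases h : i = j
  · subst h
    conv_lhs => rw [sc_spec hS f]
    simp
  · rw [hS.zero i j h f]; simp

/-- A decomposition of an object into members of the family, indexed by `K`. -/
structure DecOn (S : ι → C) (K : Type) [Fintype K] [DecidableEq K] (X : C) where
  lab : K → ι
  inn : ∀ k, S (lab k) ⟶ X
  out : ∀ k, X ⟶ S (lab k)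
  self : ∀ k, inn k ≫ out k = 𝟙 _
  ne : ∀ k k', k ≠ k' → inn k ≫ out k' = 0
  tot : ∑ k, out k ≫ inn k = 𝟙 X

section dec

variable {K K' K'' : Type} [Fintype K] [DecidableEq K] [Fintype K'] [DecidableEq K']
  [Fintype K''] [DecidableEq K'']
variable {X Y Z : C}

/-- the matrix of a morphism -/
noncomputable def mat (d : DecOn S K X) (d' : DecOn S K' Y) (f : X ⟶ Y) : Matrix K K' ℂ :=
  Matrix.of fun k k' => sc hS (d.inn k ≫ f ≫ d'.out k')

/-- the morphism of a matrix -/
noncomputable def mor (d : DecOn S K X) (d' : DecOn S K' Y) (A : Matrix K K' ℂ) : X ⟶ Y :=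
  ∑ k, ∑ k', A k k' • (d.out k ≫ dl S (d.lab k) (d'.lab k') ≫ d'.inn k')

lemma DecOn.inn_out (d : DecOn S K X) (k k' : K) :
    d.inn k ≫ d.out k' = if k = k' then dl S (d.lab k) (d.lab k') else 0 := by
  split_ifs with h
  · subst h; rw [d.self]; simp
  · exact d.ne k k' h

lemma DecOn.ext_left (d : DecOn S K X) {f g : X ⟶ Y} (h : ∀ k, d.inn k ≫ f = d.inn k ≫ g) :
    f = g := by
  rw [← Category.id_comp f, ← Category.id_comp g, ← d.tot, Preadditive.sum_comp,
    Preadditive.sum_comp]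
  simp only [Category.assoc, h]

lemma DecOn.ext_right (d : DecOn S K Y) {f g : X ⟶ Y} (h : ∀ k, f ≫ d.out k = g ≫ d.out k) :
    f = g := by
  rw [← Category.comp_id f, ← Category.comp_id g, ← d.tot, Preadditive.comp_sum,
    Preadditive.comp_sum]
  simp only [← Category.assoc, h]

lemma mor_mat (d : DecOn S K X) (d' : DecOn S K' Y) (f : X ⟶ Y) :
    mor d d' (mat hS d d' f) = f := by
  unfold mor mat
  simp only [Matrix.of_apply]
  have h : ∀ k k', sc hS (d.inn k ≫ f ≫ d'.out k') •
      (d.out k ≫ dl S (d.lab k) (d'.lab k') ≫ d'.inn k') =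
      (d.out k ≫ d.inn k) ≫ f ≫ (d'.out k' ≫ d'.inn k') := by
    intro k k'
    have h2 : d.out k ≫ (d.inn k ≫ f ≫ d'.out k') ≫ d'.inn k' =
        (d.out k ≫ d.inn k) ≫ f ≫ (d'.out k' ≫ d'.inn k') := by simp only [Category.assoc]
    rw [← h2]
    conv_rhs => rw [sc_spec hS (d.inn k ≫ f ≫ d'.out k')]
    simp
  simp only [h]
  simp only [← Preadditive.comp_sum, d'.tot]
  rw [← Preadditive.sum_comp, d.tot]
  simp

lemma mat_mor (d : DecOn S K X) (d' : DecOn S K' Y) (A : Matrix K K' ℂ) (k : K) (k' : K') :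
    mat hS d d' (mor d d' A) k k' = if d.lab k = d'.lab k' then A k k' else 0 := by
  unfold mor mat
  simp only [Matrix.of_apply]
  rw [Preadditive.sum_comp, Preadditive.comp_sum, sc_sum]
  rw [Finset.sum_eq_single k]
  · rw [Preadditive.sum_comp, Preadditive.comp_sum, sc_sum]
    rw [Finset.sum_eq_single k']
    · have h1 : d.inn k ≫ (A k k' • (d.out k ≫ dl S (d.lab k) (d'.lab k') ≫ d'.inn k')) ≫
          d'.out k' = A k k' • ((d.inn k ≫ d.out k) ≫ dl S (d.lab k) (d'.lab k') ≫
          (d'.inn k' ≫ d'.out k')) := by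
        simp only [Linear.smul_comp, Linear.comp_smul, Category.assoc]
      rw [h1, d.self, d'.self, Category.id_comp, Category.comp_id, sc_smul, sc_dl]
      split_ifs <;> simp
    · intro b _ hb
      have h1 : d.inn k ≫ (A k b • (d.out k ≫ dl S (d.lab k) (d'.lab b) ≫ d'.inn b)) ≫
          d'.out k' = A k b • ((d.inn k ≫ d.out k) ≫ dl S (d.lab k) (d'.lab b) ≫
          (d'.inn b ≫ d'.out k')) := by
        simp only [Linear.smul_comp, Linear.comp_smul, Category.assoc]
      rw [h1, d'.ne b k' hb]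
      simp
    · intro h; exact absurd (Finset.mem_univ _) h
  · intro b _ hb
    rw [Preadditive.sum_comp, Preadditive.comp_sum]
    rw [Finset.sum_eq_zero]
    · simp
    · intro k'' _
      have h1 : d.inn k ≫ (A b k'' • (d.out b ≫ dl S (d.lab b) (d'.lab k'') ≫ d'.inn k'')) ≫
          d'.out k' = A b k'' • ((d.inn k ≫ d.out b) ≫ dl S (d.lab b) (d'.lab k'') ≫
          (d'.inn k'' ≫ d'.out k')) := by
        simp only [Linear.smul_comp, Linear.comp_smul, Category.assoc]
      rw [h1, d.ne k b (Ne.symm hb)]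
      simp
  · intro h; exact absurd (Finset.mem_univ _) h

lemma mat_apply_ne (d : DecOn S K X) (d' : DecOn S K' Y) (f : X ⟶ Y) (k : K) (k' : K')
    (h : d.lab k ≠ d'.lab k') : mat hS d d' f k k' = 0 := by
  unfold mat
  exact sc_ne hS _ h

lemma mat_mor_of (d : DecOn S K X) (d' : DecOn S K' Y) (A : Matrix K K' ℂ)
    (hA : ∀ k k', d.lab k ≠ d'.lab k' → A k k' = 0) : mat hS d d' (mor d d' A) = A := by
  ext k k'
  rw [mat_mor]
  split_ifs with h
  · rfl
  · exact (hA k k' h).symm

lemma mat_inj (d : DecOn S K X) (d' : DecOn S K' Y) {f g : X ⟶ Y}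
    (h : mat hS d d' f = mat hS d d' g) : f = g := by
  rw [← mor_mat hS d d' f, h, mor_mat]

lemma mat_add (d : DecOn S K X) (d' : DecOn S K' Y) (f g : X ⟶ Y) :
    mat hS d d' (f + g) = mat hS d d' f + mat hS d d' g := by
  ext k k'
  simp [mat]

lemma mat_smul (d : DecOn S K X) (d' : DecOn S K' Y) (z : ℂ) (f : X ⟶ Y) :
    mat hS d d' (z • f) = z • mat hS d d' f := by
  ext k k'
  simp [mat]

@[simp] lemma mat_zero (d : DecOn S K X) (d' : DecOn S K' Y) :
    mat hS d d' (0 : X ⟶ Y) = 0 := by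
  ext k k'
  simp [mat]

lemma mat_sub (d : DecOn S K X) (d' : DecOn S K' Y) (f g : X ⟶ Y) :
    mat hS d d' (f - g) = mat hS d d' f - mat hS d d' g := by
  have h : f - g = f + (-1 : ℂ) • g := by rw [neg_one_smul, sub_eq_add_neg]
  rw [h, mat_add, mat_smul, neg_one_smul, sub_eq_add_neg]

lemma mat_id (d : DecOn S K X) : mat hS d d (𝟙 X) = 1 := by
  ext k k'
  unfold mat
  simp only [Matrix.of_apply, Category.id_comp]
  by_cases h : k = k'
  · subst h; rw [d.self]; simp
  · rw [d.ne k k' h, Matrix.one_apply_ne h]; simp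

lemma mat_comp (d : DecOn S K X) (d' : DecOn S K' Y) (d'' : DecOn S K'' Z) (f : X ⟶ Y)
    (g : Y ⟶ Z) : mat hS d d'' (f ≫ g) = mat hS d d' f * mat hS d' d'' g := by
  ext k k''
  rw [Matrix.mul_apply]
  unfold mat
  simp only [Matrix.of_apply]
  have h : d.inn k ≫ (f ≫ g) ≫ d''.out k'' =
      ∑ k', (d.inn k ≫ f ≫ d'.out k') ≫ (d'.inn k' ≫ g ≫ d''.out k'') := by
    have h1 : ∀ k', (d.inn k ≫ f ≫ d'.out k') ≫ (d'.inn k' ≫ g ≫ d''.out k'') =
      (d.inn k ≫ f) ≫ (d'.out k' ≫ d'.inn k') ≫ (g ≫ d''.out k'') := by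
      intro k'; simp only [Category.assoc]
    simp only [h1]
    rw [← Preadditive.comp_sum, ← Preadditive.sum_comp, d'.tot]
    simp
  rw [h, sc_sum]
  simp only [sc_comp]

/-- the adjoint -/
noncomputable def dag (d : DecOn S K X) (d' : DecOn S K' Y) (f : X ⟶ Y) : Y ⟶ X :=
  mor d' d (mat hS d d' f).conjTranspose

lemma mat_dag (d : DecOn S K X) (d' : DecOn S K' Y) (f : X ⟶ Y) :
    mat hS d' d (dag hS d d' f) = (mat hS d d' f).conjTranspose := by
  unfold dag
  apply mat_mor_of
  intro k k' h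
  rw [Matrix.conjTranspose_apply, mat_apply_ne hS d d' f k' k (Ne.symm h)]
  simp

lemma dag_dag (d : DecOn S K X) (d' : DecOn S K' Y) (f : X ⟶ Y) :
    dag hS d' d (dag hS d d' f) = f := by
  apply mat_inj hS d d'
  rw [mat_dag, mat_dag, Matrix.conjTranspose_conjTranspose]

lemma dag_comp (d : DecOn S K X) (d' : DecOn S K' Y) (d'' : DecOn S K'' Z) (f : X ⟶ Y)
    (g : Y ⟶ Z) : dag hS d d'' (f ≫ g) = dag hS d' d'' g ≫ dag hS d d' f := by
  apply mat_inj hS d'' d
  rw [mat_dag, mat_comp hS d d' d'', mat_comp hS d'' d' d, mat_dag, mat_dag,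
    Matrix.conjTranspose_mul]

lemma dag_id (d : DecOn S K X) : dag hS d d (𝟙 X) = 𝟙 X := by
  apply mat_inj hS d d
  rw [mat_dag, mat_id, Matrix.conjTranspose_one]

lemma dag_add (d : DecOn S K X) (d' : DecOn S K' Y) (f g : X ⟶ Y) :
    dag hS d d' (f + g) = dag hS d d' f + dag hS d d' g := by
  apply mat_inj hS d' d
  rw [mat_dag, mat_add, mat_add, mat_dag, mat_dag, Matrix.conjTranspose_add]

lemma dag_smul (d : DecOn S K X) (d' : DecOn S K' Y) (z : ℂ) (f : X ⟶ Y) :
    dag hS d d' (z • f) = (starRingEnd ℂ z) • dag hS d d' f := by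
  apply mat_inj hS d' d
  rw [mat_dag, mat_smul, mat_smul, mat_dag, Matrix.conjTranspose_smul]
  rfl

@[simp] lemma dag_zero (d : DecOn S K X) (d' : DecOn S K' Y) :
    dag hS d d' (0 : X ⟶ Y) = 0 := by
  apply mat_inj hS d' d
  rw [mat_dag, mat_zero, mat_zero, Matrix.conjTranspose_zero]

lemma dag_sum (d : DecOn S K X) (d' : DecOn S K' Y) {J : Type*} (s : Finset J)
    (f : J → (X ⟶ Y)) : dag hS d d' (∑ j ∈ s, f j) = ∑ j ∈ s, dag hS d d' (f j) := by
  classical
  induction s using Finset.induction_on with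
  | empty => simp
  | insert a s ha ih => rw [Finset.sum_insert ha, Finset.sum_insert ha, dag_add, ih]

/-- the trivial decomposition -/
def triv (S : ι → C) (i : ι) : DecOn S Unit (S i) where
  lab _ := i
  inn _ := 𝟙 _
  out _ := 𝟙 _
  self _ := by simp
  ne k k' h := absurd rfl h
  tot := by simp

lemma dag_triv {i j : ι} (f : S i ⟶ S j) :
    dag hS (triv S i) (triv S j) f = (starRingEnd ℂ (sc hS f)) • dl S j i := by
  unfold dag mor mat
  simp [triv]

lemma dag_inn (d : DecOn S K X) (k : K) : dag hS (triv S (d.lab k)) d (d.inn k) = d.out k := by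
  apply mat_inj hS d (triv S (d.lab k))
  rw [mat_dag]
  ext k' x
  rw [Matrix.conjTranspose_apply]
  unfold mat
  simp only [Matrix.of_apply, triv, Category.id_comp, Category.comp_id]
  rw [d.inn_out, d.inn_out]
  by_cases h : k = k'
  · subst h; simp
  · rw [if_neg h, if_neg (Ne.symm h)]; simp

lemma dag_out (d : DecOn S K X) (k : K) : dag hS d (triv S (d.lab k)) (d.out k) = d.inn k := by
  rw [← dag_inn hS d k, dag_dag]

/-- reindexing a decomposition -/
def DecOn.reindex (d : DecOn S K X) (e : K ≃ K') : DecOn S K' X where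
  lab k := d.lab (e.symm k)
  inn k := d.inn (e.symm k)
  out k := d.out (e.symm k)
  self k := d.self _
  ne k k' h := d.ne _ _ (fun h' => h (e.symm.injective h'))
  tot := by
    rw [← d.tot]
    exact Fintype.sum_equiv e.symm _ _ (fun k => rfl)

lemma mat_reindex {L L' : Type} [Fintype L] [DecidableEq L] [Fintype L'] [DecidableEq L']
    (d : DecOn S K X) (d' : DecOn S K' Y) (e : K ≃ L) (e' : K' ≃ L') (f : X ⟶ Y) :
    mat hS (d.reindex e) (d'.reindex e') f = (mat hS d d' f).submatrix e.symm e'.symm := by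
  ext k k'
  rfl

lemma dag_reindex {L L' : Type} [Fintype L] [DecidableEq L] [Fintype L'] [DecidableEq L']
    (d : DecOn S K X) (d' : DecOn S K' Y) (e : K ≃ L) (e' : K' ≃ L') (f : X ⟶ Y) :
    dag hS (d.reindex e) (d'.reindex e') f = dag hS d d' f := by
  unfold dag mor
  rw [mat_reindex]
  refine Fintype.sum_equiv e'.symm _ _ (fun k' => ?_)
  refine Fintype.sum_equiv e.symm _ _ (fun k => ?_)
  rfl

end dec

end Pool.Agent.W452.UF
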