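import Pool.Agent.W452.UF.Cat

/-!
A fusion category with a gauge with unitary F-matrices is unitary.
-/

set_option autoImplicit false
set_option linter.unusedSectionVars false

open CategoryTheory CategoryTheory.Limits MonoidalCategory

namespace Pool.Agent.W452.UF

universe v u

section

variable {C : Type u} [Category.{v} C] [Abelian C] [Linear ℂ C] [MonoidalCategory C]
  [MonoidalPreadditive C] [MonoidalLinear ℂ C] [RigidCategory C]
variable {n : ℕ} {S : Fin n → C}

lemma sch_of_listsSimples (hC : IsFusionCategory C) (hS : ListsSimples S) : Sch S where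
  scalar i f := by
    have := hS.simple i
    have := hC.finiteDimensional_hom (S i) (S i)
    obtain ⟨c, hc⟩ := endomorphism_simple_eq_smul_id ℂ f
    exact ⟨c, hc.symm⟩
  ne i := by
    have := hS.simple i
    exact id_nonzero (S i)
  zero i j h f := by
    have := hS.simple i
    have := hS.simple j
    by_contra hf
    have := isIso_of_hom_simple hf
    exact h (hS.injective i j ⟨asIso f⟩)

lemma exists_decOn (hC : IsFusionCategory C) (hS : ListsSimples S) (X : C) :
    ∃ k : ℕ, Nonempty (DecOn S (Fin k) X) := by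
  obtain ⟨m, T, inn, out, hT, h1, h2, h3⟩ := hC.semisimple X
  have h4 : ∀ k, ∃ i, Nonempty (T k ≅ S i) := fun k => hS.complete (T k) (hT k)
  choose idx hidx using h4
  let φ : ∀ k, T k ≅ S (idx k) := fun k => (hidx k).some
  refine ⟨m, ⟨⟨idx, fun k => (φ k).inv ≫ inn k, fun k => out k ≫ (φ k).hom, ?_, ?_, ?_⟩⟩⟩
  · intro k
    rw [Category.assoc, ← Category.assoc (inn k), h1, Category.id_comp, Iso.inv_hom_id]
  · intro k l hkl
    rw [Category.assoc, ← Category.assoc (inn k), h2 k l hkl, zero_comp, comp_zero]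
  · rw [← h3]
    refine Finset.sum_congr rfl (fun k _ => ?_)
    rw [Category.assoc, Iso.hom_inv_id_assoc]

lemma exists_sum (X Y : C) : ∃ (Z : C) (i : X ⟶ Z) (i' : Z ⟶ X) (j : Y ⟶ Z) (j' : Z ⟶ Y),
    i ≫ i' = 𝟙 _ ∧ j ≫ j' = 𝟙 _ ∧ i ≫ j' = 0 ∧ j ≫ i' = 0 ∧ i' ≫ i + j' ≫ j = 𝟙 Z := by
  have : HasBinaryBiproducts C := Abelian.hasBinaryBiproducts
  exact ⟨X ⊞ Y, biprod.inl, biprod.fst, biprod.inr, biprod.snd, biprod.inl_fst, biprod.inr_snd,
    biprod.inl_snd, biprod.inr_fst, biprod.total⟩

/-- **A fusion category with a gauge in which all F-matrices are unitary is unitary.** -/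
theorem isUnitary_of_gauge (hC : IsFusionCategory C) (hS : ListsSimples S) (G : Gauge S)
    (hG : HasUnitaryF G) : IsUnitary C := by
  have hSch := sch_of_listsSimples hC hS
  obtain ⟨i0, ⟨w⟩⟩ := hS.complete (𝟙_ C) hC.simple_unit
  obtain ⟨t, ht, hL, hR⟩ := exists_scale hSch G w.symm hG
  choose k hk using exists_decOn hC hS
  let D : Data S :=
    { hS := hSch
      N := fun a b => k (S a ⊗ S b)
      e := fun a b => (hk (S a ⊗ S b)).some
      G := G
      i0 := i0
      w := w.symm
      t := t
      ht := ht }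
  have hD : D.IsUnitary := ⟨hG, hL, hR⟩
  refine ⟨Obj D, inferInstance, inferInstance, inferInstance, inferInstance, inferInstance,
    inferInstance, cstar D hD (fun X => ⟨k X, hk X⟩) exists_sum ?_, Obj.forget D, inferInstance,
    inferInstance, ?_, ⟨Obj.forgetMonoidal D⟩⟩
  · intro X p hp
    exact IsIdempotentComplete.idempotents_split X p hp
  · have : (Obj.forget D).EssSurj := ⟨fun X => ⟨⟨X, k X, (hk X).some⟩, ⟨Iso.refl X⟩⟩⟩
    exact { }

end

end Pool.Agent.W452.UF
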