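import Pool.Agent.W452.UF.Assoc

/-!
Unitarity of the unit constraints.
-/

set_option autoImplicit false
set_option linter.unusedSectionVars false

open CategoryTheory CategoryTheory.Limits MonoidalCategory

namespace Pool.Agent.W452.UF

universe v u

variable {C : Type u} [Category.{v} C] [Preadditive C] [Linear ℂ C]
variable [MonoidalCategory C] [MonoidalPreadditive C] [MonoidalLinear ℂ C]
variable {n : ℕ} {S : Fin n → C} (hS : Sch S)
variable (G : Gauge S) {i0 : Fin n} (w : S i0 ≅ 𝟙_ C)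

section numbers

include hS in
lemma finrank_sch_self (b : Fin n) : Module.finrank ℂ (S b ⟶ S b) = 1 := by
  apply finrank_eq_one (𝟙 (S b)) (hS.ne b)
  intro f
  obtain ⟨z, hz⟩ := hS.scalar b f
  exact ⟨z, hz.symm⟩

include hS in
lemma finrank_sch_ne {f b : Fin n} (h : f ≠ b) : Module.finrank ℂ (S f ⟶ S b) = 0 := by
  have : Subsingleton (S f ⟶ S b) := ⟨fun x y => by rw [hS.zero f b h x, hS.zero f b h y]⟩
  exact Module.finrank_zero_of_subsingleton

include w in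
lemma mult_left (f b : Fin n) : mult S i0 b f = Module.finrank ℂ (S f ⟶ S b) := by
  unfold mult
  exact (Linear.homCongr ℂ (Iso.refl (S f)) (whiskerRightIso w (S b) ≪≫ λ_ (S b))).finrank_eq

include w in
lemma mult_right (f a : Fin n) : mult S a i0 f = Module.finrank ℂ (S f ⟶ S a) := by
  unfold mult
  exact (Linear.homCongr ℂ (Iso.refl (S f)) (whiskerLeftIso (S a) w ≪≫ ρ_ (S a))).finrank_eq

/-- the number of the left unit constraint -/
noncomputable def Ln (b : Fin n) (j : Fin (mult S i0 b b)) : ℂ :=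
  sc hS (G i0 b b j ≫ (w.hom ▷ S b) ≫ (λ_ (S b)).hom)

/-- the number of the right unit constraint -/
noncomputable def Rn (a : Fin n) (j : Fin (mult S a i0 a)) : ℂ :=
  sc hS (G a i0 a j ≫ (S a ◁ w.hom) ≫ (ρ_ (S a)).hom)

lemma Ln_spec (b : Fin n) (j : Fin (mult S i0 b b)) :
    G i0 b b j ≫ (w.hom ▷ S b) ≫ (λ_ (S b)).hom = Ln hS G w b j • 𝟙 (S b) := by
  have := sc_spec hS (G i0 b b j ≫ (w.hom ▷ S b) ≫ (λ_ (S b)).hom)
  rwa [dl_self] at this

lemma Rn_spec (a : Fin n) (j : Fin (mult S a i0 a)) :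
    G a i0 a j ≫ (S a ◁ w.hom) ≫ (ρ_ (S a)).hom = Rn hS G w a j • 𝟙 (S a) := by
  have := sc_spec hS (G a i0 a j ≫ (S a ◁ w.hom) ≫ (ρ_ (S a)).hom)
  rwa [dl_self] at this

lemma Ln_ne (b : Fin n) (j : Fin (mult S i0 b b)) : Ln hS G w b j ≠ 0 := by
  intro h
  have h1 := Ln_spec hS G w b j
  rw [h, zero_smul, ← Category.assoc] at h1
  have h2 : G i0 b b j ≫ (w.hom ▷ S b) = 0 := by
    rw [← cancel_mono (λ_ (S b)).hom, h1, zero_comp]
  have h3 : G i0 b b j = 0 := by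
    rw [← cancel_mono (w.hom ▷ S b), h2, zero_comp]
  exact (G i0 b b).ne_zero j h3

/-- The comparison of the two numbers. -/
lemma norm_Rn_eq_Ln (hF : HasUnitaryF G) (a b d : Fin n) (i : Fin (mult S a i0 a))
    (j : Fin (mult S a b d)) (i' : Fin (mult S i0 b b)) :
    ‖Rn hS G w a i‖ = ‖Ln hS G w b i'‖ := by
  have hsub : Subsingleton (Fin (mult S i0 b b)) := by
    rw [mult_left w, finrank_sch_self hS]; infer_instance
  obtain ⟨F, hF1, hF2, -⟩ := hF a i0 b d
  let x : LIdx S a i0 b d := ⟨a, i, j⟩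
  -- sums over the right index
  have hsum : ∀ {A : Type v} [AddCommMonoid A] (g : RIdx S a i0 b d → A),
      ∑ y, g y = ∑ j1 : Fin (mult S a b d), g ⟨b, i', j1⟩ := by
    intro A _ g
    rw [Fintype.sum_sigma, Finset.sum_eq_single b]
    · rw [Fintype.sum_prod_type, Fintype.sum_subsingleton _ i']
    · intro f _ hf
      have h0 : mult S i0 b f = 0 := by rw [mult_left w, finrank_sch_ne hS hf]
      have : IsEmpty (Fin (mult S i0 b f)) := by rw [h0]; infer_instance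
      exact Fintype.sum_empty _
    · intro h; exact absurd (Finset.mem_univ _) h
  have hsumC : ∀ (g : RIdx S a i0 b d → ℂ),
      ∑ y, g y = ∑ j1 : Fin (mult S a b d), g ⟨b, i', j1⟩ := by
    intro g
    rw [Fintype.sum_sigma, Finset.sum_eq_single b]
    · rw [Fintype.sum_prod_type, Fintype.sum_subsingleton _ i']
    · intro f _ hf
      have h0 : mult S i0 b f = 0 := by rw [mult_left w, finrank_sch_ne hS hf]
      have : IsEmpty (Fin (mult S i0 b f)) := by rw [h0]; infer_instance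
      exact Fintype.sum_empty _
    · intro h; exact absurd (Finset.mem_univ _) h
  have hx := hF1 x
  have hx2 : (lvec G x ≫ (α_ (S a) (S i0) (S b)).hom) ≫
      (S a ◁ ((w.hom ▷ S b) ≫ (λ_ (S b)).hom)) = Rn hS G w a i • G a b d j := by
    change ((G a b d j ≫ (G a i0 a i ▷ S b)) ≫ (α_ (S a) (S i0) (S b)).hom) ≫
      (S a ◁ ((w.hom ▷ S b) ≫ (λ_ (S b)).hom)) = _
    have h1 : ((G a b d j ≫ (G a i0 a i ▷ S b)) ≫ (α_ (S a) (S i0) (S b)).hom) ≫
      (S a ◁ ((w.hom ▷ S b) ≫ (λ_ (S b)).hom)) =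
      G a b d j ≫ ((G a i0 a i ≫ (S a ◁ w.hom) ≫ (ρ_ (S a)).hom) ▷ S b) := by
      simp
    rw [h1, Rn_spec, MonoidalLinear.smul_whiskerRight, id_whiskerRight, Linear.comp_smul,
      Category.comp_id]
  have hy : ∀ j1 : Fin (mult S a b d), rvec G (⟨b, i', j1⟩ : RIdx S a i0 b d) ≫
      (S a ◁ ((w.hom ▷ S b) ≫ (λ_ (S b)).hom)) = Ln hS G w b i' • G a b d j1 := by
    intro j1
    change (G a b d j1 ≫ (S a ◁ G i0 b b i')) ≫ _ = _
    rw [Category.assoc, ← MonoidalCategory.whiskerLeft_comp, Ln_spec,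
      MonoidalLinear.whiskerLeft_smul, MonoidalCategory.whiskerLeft_id, Linear.comp_smul,
      Category.comp_id]
  rw [hx, hsum, Preadditive.sum_comp] at hx2
  simp only [Linear.smul_comp, hy, smul_smul] at hx2
  -- compare coordinates
  have hco : ∀ j1, F ⟨b, i', j1⟩ x * Ln hS G w b i' = if j1 = j then Rn hS G w a i else 0 := by
    intro j1
    have h1 := congrArg (fun v => (G a b d).repr v j1) hx2
    simp only [map_sum, map_smul, Finsupp.coe_finsetSum, Finset.sum_apply, Finsupp.smul_apply,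
      Module.Basis.repr_self, smul_eq_mul] at h1
    rw [Finset.sum_eq_single j1] at h1
    · rw [Finsupp.single_eq_same, mul_one] at h1
      rw [h1]
      by_cases hj : j1 = j
      · subst hj; simp
      · rw [Finsupp.single_eq_of_ne (by simpa using hj), if_neg hj, mul_zero]
    · intro j2 _ hj2
      rw [Finsupp.single_eq_of_ne (by simpa using (Ne.symm hj2)), mul_zero]
    · intro h; exact absurd (Finset.mem_univ _) h
  have hcol : ∑ j1 : Fin (mult S a b d), (starRingEnd ℂ) (F ⟨b, i', j1⟩ x) * F ⟨b, i', j1⟩ x = 1 := by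
    have h1 : (F.conjTranspose * F) x x = 1 := by rw [hF2, Matrix.one_apply_eq]
    rw [Matrix.mul_apply, hsumC] at h1
    exact h1
  have h2 : ∑ j1 : Fin (mult S a b d),
      (starRingEnd ℂ) (F ⟨b, i', j1⟩ x * Ln hS G w b i') * (F ⟨b, i', j1⟩ x * Ln hS G w b i') =
      (starRingEnd ℂ) (Ln hS G w b i') * Ln hS G w b i' := by
    have h3 : ∀ j1 : Fin (mult S a b d),
      (starRingEnd ℂ) (F ⟨b, i', j1⟩ x * Ln hS G w b i') * (F ⟨b, i', j1⟩ x * Ln hS G w b i') =
      ((starRingEnd ℂ) (F ⟨b, i', j1⟩ x) * F ⟨b, i', j1⟩ x) *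
        ((starRingEnd ℂ) (Ln hS G w b i') * Ln hS G w b i') := by
      intro j1; rw [map_mul]; ring
    simp only [h3]
    rw [← Finset.sum_mul, hcol, one_mul]
  simp only [hco] at h2
  rw [Finset.sum_eq_single j] at h2
  · rw [if_pos rfl, ← Complex.normSq_eq_conj_mul_self, ← Complex.normSq_eq_conj_mul_self] at h2
    have h4 : Complex.normSq (Rn hS G w a i) = Complex.normSq (Ln hS G w b i') := by
      exact_mod_cast h2
    rw [Complex.normSq_eq_norm_sq, Complex.normSq_eq_norm_sq] at h4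
    exact (sq_eq_sq₀ (norm_nonneg _) (norm_nonneg _)).mp h4
  · intro j1 _ hj1
    rw [if_neg hj1]; simp
  · intro h; exact absurd (Finset.mem_univ _) h

/-- One scaling makes all numbers of modulus one. -/
lemma exists_scale (hF : HasUnitaryF G) : ∃ t : ℂ, t ≠ 0 ∧
    (∀ b j, ‖t * Ln hS G w b j‖ = 1) ∧ (∀ a j, ‖t * Rn hS G w a j‖ = 1) := by
  have hpos : ∀ b, 0 < mult S i0 b b := by
    intro b; rw [mult_left w, finrank_sch_self hS]; exact one_pos
  have hpos' : ∀ b, 0 < mult S b i0 b := by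
    intro b; rw [mult_right w, finrank_sch_self hS]; exact one_pos
  let j0 : Fin (mult S i0 i0 i0) := ⟨0, hpos i0⟩
  have hL0 : ‖Ln hS G w i0 j0‖ ≠ 0 := norm_ne_zero_iff.mpr (Ln_ne hS G w i0 j0)
  have hR : ∀ a j, ‖Rn hS G w a j‖ = ‖Ln hS G w i0 j0‖ := by
    intro a j
    exact norm_Rn_eq_Ln hS G w hF a i0 a j j j0
  have hL : ∀ b j, ‖Ln hS G w b j‖ = ‖Ln hS G w i0 j0‖ := by
    intro b j
    exact (norm_Rn_eq_Ln hS G w hF i0 b b j0 j j).symm.trans (hR i0 j0)
  refine ⟨((‖Ln hS G w i0 j0‖⁻¹ : ℝ) : ℂ), ?_, ?_, ?_⟩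
  · exact_mod_cast inv_ne_zero hL0
  · intro b j
    rw [norm_mul, hL b j, Complex.norm_real, Real.norm_of_nonneg (by positivity)]
    exact inv_mul_cancel₀ hL0
  · intro b j
    rw [norm_mul, hR b j, Complex.norm_real, Real.norm_of_nonneg (by positivity)]
    exact inv_mul_cancel₀ hL0

end numbers

/-- the decomposition of the unit object -/
noncomputable def unitDec (t : ℂ) (ht : t ≠ 0) : DecOn S (Fin 1) (𝟙_ C) where
  lab _ := i0
  inn _ := t • w.hom
  out _ := t⁻¹ • w.inv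
  self _ := by simp [ht]
  ne k k' h := absurd (Subsingleton.elim _ _) h
  tot := by simp [ht]

lemma conj_eq_inv {z : ℂ} (h : ‖z‖ = 1) : (starRingEnd ℂ) z = z⁻¹ := by
  rw [Complex.inv_def, Complex.normSq_eq_norm_sq, h]
  simp

section unitors

variable {N : Fin n → Fin n → ℕ} (e : ∀ a b, DecOn S (Fin (N a b)) (S a ⊗ S b))

lemma unitor_key {K : Type} [Fintype K] [DecidableEq K] {Z : C} {a : Fin n} (E : DecOn S K Z)
    (φ : Z ≅ S a) (v : S a ⟶ Z) (o : Z ⟶ S a) (hv : v ≫ o = 𝟙 (S a))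
    (hd : dag hS (triv S a) E v = o) (l : ℂ) (h : v ≫ φ.hom = l • 𝟙 (S a)) (hl : ‖l‖ = 1) :
    dag hS E (triv S a) φ.hom ≫ o = φ.inv ≫ o := by
  have hne : l ≠ 0 := by
    intro h0; rw [h0, norm_zero] at hl; exact zero_ne_one hl
  have h3 : φ.inv = l⁻¹ • v := by
    rw [← cancel_mono φ.hom, Linear.smul_comp, h, smul_smul, inv_mul_cancel₀ hne,
      one_smul, Iso.inv_hom_id]
  rw [h3, Linear.smul_comp, hv, ← conj_eq_inv hl, ← hd, ← dag_comp, h, dag_smul, dag_id]

lemma dag_leftUnitor_simple (t : ℂ) (ht : t ≠ 0) (hL : ∀ b j, ‖t * Ln hS G w b j‖ = 1)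
    (a : Fin n) : dag hS (tens (gd hS e G) (unitDec w t ht) (triv S a)) (triv S a)
      (λ_ (S a)).hom = (λ_ (S a)).inv := by
  apply (tens (gd hS e G) (unitDec w t ht) (triv S a)).ext_right
  rintro ⟨⟨k, k'⟩, ⟨c, j⟩⟩
  by_cases hc : a = c
  · subst hc
    refine unitor_key hS (tens (gd hS e G) (unitDec w t ht) (triv S a)) (λ_ (S a))
      ((tens (gd hS e G) (unitDec w t ht) (triv S a)).inn ⟨(k, k'), ⟨a, j⟩⟩) _
      ((tens (gd hS e G) (unitDec w t ht) (triv S a)).self ⟨(k, k'), ⟨a, j⟩⟩)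
      (dag_inn hS (tens (gd hS e G) (unitDec w t ht) (triv S a)) ⟨(k, k'), ⟨a, j⟩⟩)
      (t * Ln hS G w a j) ?_ (hL a j)
    change (G i0 a a j ≫ ((t • w.hom) ⊗ₘ 𝟙 (S a))) ≫ (λ_ (S a)).hom = _
    rw [smul_tensor, tensorHom_id, Linear.comp_smul, Linear.smul_comp, Category.assoc, Ln_spec,
      smul_smul]
  · exact (hS.zero a c hc _).trans (hS.zero a c hc _).symm

lemma dag_rightUnitor_simple (t : ℂ) (ht : t ≠ 0) (hR : ∀ b j, ‖t * Rn hS G w b j‖ = 1)
    (a : Fin n) : dag hS (tens (gd hS e G) (triv S a) (unitDec w t ht)) (triv S a)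
      (ρ_ (S a)).hom = (ρ_ (S a)).inv := by
  apply (tens (gd hS e G) (triv S a) (unitDec w t ht)).ext_right
  rintro ⟨⟨k, k'⟩, ⟨c, j⟩⟩
  by_cases hc : a = c
  · subst hc
    refine unitor_key hS (tens (gd hS e G) (triv S a) (unitDec w t ht)) (ρ_ (S a))
      ((tens (gd hS e G) (triv S a) (unitDec w t ht)).inn ⟨(k, k'), ⟨a, j⟩⟩) _
      ((tens (gd hS e G) (triv S a) (unitDec w t ht)).self ⟨(k, k'), ⟨a, j⟩⟩)
      (dag_inn hS (tens (gd hS e G) (triv S a) (unitDec w t ht)) ⟨(k, k'), ⟨a, j⟩⟩)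
      (t * Rn hS G w a j) ?_ (hR a j)
    change (G a i0 a j ≫ (𝟙 (S a) ⊗ₘ (t • w.hom))) ≫ (ρ_ (S a)).hom = _
    rw [tensor_smul, id_tensorHom, Linear.comp_smul, Linear.smul_comp, Category.assoc, Rn_spec,
      smul_smul]
  · exact (hS.zero a c hc _).trans (hS.zero a c hc _).symm

variable {K : Type} [Fintype K] [DecidableEq K] {X : C}

/-- **The left unit constraint is unitary.** -/
lemma dag_leftUnitor (t : ℂ) (ht : t ≠ 0) (hL : ∀ b j, ‖t * Ln hS G w b j‖ = 1)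
    (d : DecOn S K X) : dag hS (tens (gd hS e G) (unitDec w t ht) d) d
      (λ_ X).hom = (λ_ X).inv := by
  have h2 : (λ_ X).hom = ∑ k, (𝟙 (𝟙_ C) ⊗ₘ d.out k) ≫ (λ_ (S (d.lab k))).hom ≫ d.inn k := by
    rw [← Category.comp_id (λ_ X).hom, ← d.tot, Preadditive.comp_sum]
    refine Finset.sum_congr rfl (fun k _ => ?_)
    rw [id_tensorHom, ← leftUnitor_naturality_assoc]
  have h3 : (λ_ X).inv = ∑ k, d.out k ≫ (λ_ (S (d.lab k))).inv ≫ (𝟙 (𝟙_ C) ⊗ₘ d.inn k) := by
    rw [← Category.id_comp (λ_ X).inv, ← d.tot, Preadditive.sum_comp]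
    refine Finset.sum_congr rfl (fun k _ => ?_)
    rw [id_tensorHom, Category.assoc, leftUnitor_inv_naturality]
  rw [h3]
  conv_lhs => rw [h2]
  rw [dag_sum]
  refine Finset.sum_congr rfl (fun k _ => ?_)
  rw [dag_comp hS _ (tens (gd hS e G) (unitDec w t ht) (triv S (d.lab k))) _,
    dag_comp hS _ (triv S (d.lab k)) _, dag_leftUnitor_simple hS G w e t ht hL, dag_tensor,
    dag_inn, dag_out, dag_id, Category.assoc]

/-- **The right unit constraint is unitary.** -/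
lemma dag_rightUnitor (t : ℂ) (ht : t ≠ 0) (hR : ∀ b j, ‖t * Rn hS G w b j‖ = 1)
    (d : DecOn S K X) : dag hS (tens (gd hS e G) d (unitDec w t ht)) d
      (ρ_ X).hom = (ρ_ X).inv := by
  have h2 : (ρ_ X).hom = ∑ k, (d.out k ⊗ₘ 𝟙 (𝟙_ C)) ≫ (ρ_ (S (d.lab k))).hom ≫ d.inn k := by
    rw [← Category.comp_id (ρ_ X).hom, ← d.tot, Preadditive.comp_sum]
    refine Finset.sum_congr rfl (fun k _ => ?_)
    rw [tensorHom_id, ← rightUnitor_naturality_assoc]
  have h3 : (ρ_ X).inv = ∑ k, d.out k ≫ (ρ_ (S (d.lab k))).inv ≫ (d.inn k ⊗ₘ 𝟙 (𝟙_ C)) := by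
    rw [← Category.id_comp (ρ_ X).inv, ← d.tot, Preadditive.sum_comp]
    refine Finset.sum_congr rfl (fun k _ => ?_)
    rw [tensorHom_id, Category.assoc, rightUnitor_inv_naturality]
  rw [h3]
  conv_lhs => rw [h2]
  rw [dag_sum]
  refine Finset.sum_congr rfl (fun k _ => ?_)
  rw [dag_comp hS _ (tens (gd hS e G) (triv S (d.lab k)) (unitDec w t ht)) _,
    dag_comp hS _ (triv S (d.lab k)) _, dag_rightUnitor_simple hS G w e t ht hR, dag_tensor,
    dag_inn, dag_out, dag_id, Category.assoc]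

end unitors

end Pool.Agent.W452.UF
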